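import Pool.Agent.Shared.Mod2Cx

/-! The algebraic core: a group acting on a linear space, and a complex labelled by points. -/

namespace Pool.Agent.Lib.MP_42281e_gt

open Pool.Agent.Shared.Mod2 Set

variable {Γ Pt B : Type} [Group Γ]

/-- The action on subsets. -/
def img {V : Type} (a : Γ →* Equiv.Perm V) : Γ →* Equiv.Perm (Set V) where
  toFun h := ⟨fun S => a h '' S, fun S => (a h).symm '' S, fun S => by simp [image_image],
    fun S => by simp [image_image]⟩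
  map_one' := by ext S : 1; simp
  map_mul' g h := by ext S : 1; simp [image_image]

lemma img_apply {V : Type} (a : Γ →* Equiv.Perm V) (h : Γ) (S : Set V) : img a h S = a h '' S := rfl

/-- The action on labelled points. -/
def lbl (J : Type) (a : Γ →* Equiv.Perm Pt) : Γ →* Equiv.Perm (J × Pt) where
  toFun h := (Equiv.refl J).prodCongr (a h)
  map_one' := by ext x : 1; simp
  map_mul' g h := by ext x : 1; rw [map_mul]; rfl

lemma lbl_apply (J : Type) (a : Γ →* Equiv.Perm Pt) (h : Γ) (x : J × Pt) :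
    lbl J a h x = (x.1, a h x.2) := rfl

/-- The diagonal action on pairs. -/
def pr {V : Type} (a : Γ →* Equiv.Perm V) : Γ →* Equiv.Perm (V × V) where
  toFun h := (a h).prodCongr (a h)
  map_one' := by ext x : 1; simp
  map_mul' g h := by ext x : 1; rw [map_mul]; rfl

/-- An invariant family of lines. -/
structure Lines (a : Γ →* Equiv.Perm Pt) (L : Set (Set Pt)) : Prop where
  inv : ∀ h, ∀ P ∈ L, a h '' P ∈ L
  uniq : ∀ P ∈ L, ∀ Q ∈ L, ∀ x y, x ≠ y → x ∈ P → y ∈ P → x ∈ Q → y ∈ Q → P = Q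
  ex : ∀ x y, x ≠ y → ∃ P ∈ L, x ∈ P ∧ y ∈ P
  fix : ∀ h, h ≠ 1 → ∀ x y, x ≠ y → a h x = x → a h y = y → ∃ P ∈ L, ∀ z, a h z = z → z ∈ P

/-- Sets that are not contained in a point or a line. -/
def Fr (L : Set (Set Pt)) (T : Set Pt) : Prop := ¬ T.Subsingleton ∧ ∀ P ∈ L, ¬ T ⊆ P

open Classical in
/-- The point or line spanned by a set. -/
noncomputable def hull (L : Set (Set Pt)) (T : Set Pt) : Set Pt :=
  if T.Subsingleton then T else ⋃₀ {P | P ∈ L ∧ T ⊆ P}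

/-- Labelled sets with at most one point for each label. -/
def Fn {J : Type} (S : Set (J × Pt)) : Prop := ∀ j x y, (j, x) ∈ S → (j, y) ∈ S → x = y

variable {a : Γ →* Equiv.Perm Pt} {L : Set (Set Pt)}

lemma Fr.mono {T T' : Set Pt} (h : Fr L T) (e : T ⊆ T') : Fr L T' :=
  ⟨fun h' => h.1 (h'.anti e), fun P hP h' => h.2 P hP (e.trans h')⟩

lemma sub_img (h : Γ) (T : Set Pt) : (a h '' T).Subsingleton ↔ T.Subsingleton :=
  ⟨fun e => subsingleton_of_image (a h).injective T e, fun e => e.image _⟩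

lemma Lines.inv' (hL : Lines a L) (h : Γ) {P : Set Pt} (hP : a h '' P ∈ L) : P ∈ L := by
  simpa [image_image] using hL.inv h⁻¹ _ hP

lemma Lines.fr (hL : Lines a L) (h : Γ) {T : Set Pt} (e : Fr L T) : Fr L (a h '' T) := by
  refine ⟨fun x => e.1 ((sub_img h T).1 x), fun P hP x => e.2 _ (hL.inv h⁻¹ P hP) fun y hy => ?_⟩
  exact ⟨a h y, x ⟨y, hy, rfl⟩, by simp⟩

lemma Lines.fr' (hL : Lines a L) (h : Γ) {T : Set Pt} (e : Fr L (a h '' T)) : Fr L T := by
  simpa [image_image] using hL.fr h⁻¹ e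

lemma Lines.hull_eq (hL : Lines a L) {T P : Set Pt} (h : ¬ T.Subsingleton) (hP : P ∈ L)
    (e : T ⊆ P) : hull L T = P := by
  rw [hull, if_neg h]
  obtain ⟨x, hx, y, hy, n⟩ := not_subsingleton_iff.1 h
  refine subset_antisymm (sUnion_subset fun Q hQ => ?_) (subset_sUnion_of_mem ⟨hP, e⟩)
  rw [hL.uniq Q hQ.1 P hP x y n (hQ.2 hx) (hQ.2 hy) (e hx) (e hy)]

lemma hull_sub {T : Set Pt} (h : T.Subsingleton) : hull L T = T := if_pos h

lemma exists_line {T : Set Pt} (h : ¬ T.Subsingleton) (h' : ¬ Fr L T) : ∃ P ∈ L, T ⊆ P := by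
  by_contra e
  exact h' ⟨h, fun P hP x => e ⟨P, hP, x⟩⟩

lemma Lines.hull_img (hL : Lines a L) (h : Γ) {T : Set Pt} (e : ¬ Fr L T) :
    hull L (a h '' T) = a h '' hull L T := by
  by_cases h1 : T.Subsingleton
  · rw [hull_sub h1, hull_sub (h1.image _)]
  · obtain ⟨P, hP, e⟩ := exists_line h1 e
    rw [hL.hull_eq h1 hP e, hL.hull_eq (fun x => h1 ((sub_img h T).1 x)) (hL.inv h P hP)
      (image_mono e)]

lemma snd_img {J : Type} (h : Γ) (S : Set (J × Pt)) :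
    Prod.snd '' (lbl J a h '' S) = a h '' (Prod.snd '' S) := by
  simp only [image_image, lbl_apply]

lemma Fn.img {J : Type} {S : Set (J × Pt)} (hS : Fn S) (h : Γ) : Fn (lbl J a h '' S) := by
  rintro j x y ⟨⟨i, u⟩, hu, e⟩ ⟨⟨k, v⟩, hv, e'⟩
  simp only [lbl_apply, Prod.mk.injEq] at e e'
  obtain ⟨rfl, rfl⟩ := e
  obtain ⟨rfl, rfl⟩ := e'
  rw [hS _ u v hu hv]

lemma Lines.free (hL : Lines a L) {J : Type} {S : Set (J × Pt)} (h1 : Fn S)
    (h2 : Fr L (Prod.snd '' S)) {h : Γ} (e : lbl J a h '' S = S) : h = 1 := by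
  by_contra n
  have f : ∀ x ∈ Prod.snd '' S, a h x = x := by
    rintro _ ⟨⟨j, x⟩, hx, rfl⟩
    exact h1 j _ _ (e ▸ ⟨(j, x), hx, rfl⟩) hx
  obtain ⟨x, hx, y, hy, n'⟩ := not_subsingleton_iff.1 h2.1
  obtain ⟨P, hP, e⟩ := hL.fix h n x y n' (f x hx) (f y hy)
  exact h2.2 P hP fun z hz => e z (f z hz)

lemma size_lt {r : ℕ} {S S' : Set (Fin r × Pt)} (h : S ⊂ S') (h' : Fn S') :
    (Prod.fst '' S).ncard < (Prod.fst '' S').ncard := by
  refine ncard_lt_ncard ⟨image_mono h.1, fun e => h.2 ?_⟩ (toFinite _)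
  rintro ⟨j, x⟩ hx
  obtain ⟨⟨i, y⟩, hy, rfl⟩ := e ⟨_, hx, rfl⟩
  rwa [h' _ x y hx (h.1 hy)]

lemma Lines.size_ge (hL : Lines a L) {r : ℕ} {S : Set (Fin r × Pt)} (h1 : Fn S)
    (h2 : Fr L (Prod.snd '' S)) : 2 < (Prod.fst '' S).ncard := by
  obtain ⟨_, ⟨⟨i, x⟩, hx, rfl⟩, _, ⟨⟨j, y⟩, hy, rfl⟩, n⟩ := not_subsingleton_iff.1 h2.1
  obtain ⟨P, hP, p1, p2⟩ := hL.ex _ _ n
  obtain ⟨_, ⟨⟨k, z⟩, hz, rfl⟩, p3⟩ := not_subset.1 (h2.2 P hP)
  refine (two_lt_ncard_iff (toFinite _)).2 ⟨i, j, k, ⟨_, hx, rfl⟩, ⟨_, hy, rfl⟩, ⟨_, hz, rfl⟩,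
    ?_, ?_, ?_⟩
  · rintro rfl; exact n (h1 _ _ _ hx hy)
  · rintro rfl; exact p3 (h1 _ _ _ hx hz ▸ p1)
  · rintro rfl; exact p3 (h1 _ _ _ hy hz ▸ p2)

lemma length_le {hi : ℕ} : ∀ (l : List ℕ) (lo : ℕ), l.Pairwise (· < ·) →
    (∀ x ∈ l, lo ≤ x ∧ x ≤ hi) → l.length ≤ hi + 1 - lo
  | [], _, _, _ => Nat.zero_le _
  | x :: l, lo, h1, h2 => by
    rw [List.pairwise_cons] at h1
    have := length_le l (x + 1) h1.2 fun y hy => ⟨h1.1 y hy, (h2 y (List.mem_cons_of_mem _ hy)).2⟩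
    have := h2 x List.mem_cons_self
    simp only [List.length_cons]
    omega

open Classical in
lemma fill_chain {V : Type} (Q : Set V → Prop) (S : Set V) (hS : Q S) {k : ℕ}
    {z : Ch (List (Set V))} (h1 : z ∈ (LC _).Gr k)
    (h2 : z ∈ sup {l | l.Pairwise (· ⊂ ·) ∧ ∀ T ∈ l, S ⊆ T ∧ Q T}) (h3 : (LC _).d z = 0) :
    ∃ y ∈ (LC _).Gr (k + 1),
      y ∈ sup {l | l.Pairwise (· ⊂ ·) ∧ ∀ T ∈ l, S ⊆ T ∧ Q T} ∧ (LC _).d y = z := by
  let c : List (Set V) → Ch (List (Set V)) := fun l => if S ∈ l then 0 else sg (S :: l)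
  refine ⟨lin c z, lin_mem (fun l hl => ?_) h1, lin_mem (fun l hl => ?_) h2, ?_⟩
  · simp only [c]
    split_ifs
    · exact zero_mem _
    · exact sg_mem (congrArg (· + 1) hl)
  · simp only [c]
    split_ifs with h
    · exact zero_mem _
    · refine sg_mem ⟨List.pairwise_cons.2 ⟨fun T hT => ?_, hl.1⟩, ?_⟩
      · exact (hl.2 T hT).1.ssubset_of_ne fun e => h (e ▸ hT)
      · exact List.forall_mem_cons.2 ⟨⟨subset_rfl, hS⟩, hl.2⟩
  · have := map_eq (L := lin bdl ∘ₗ lin c) (L' := LinearMap.id + lin c ∘ₗ lin bdl) (fun l hl => ?_) h2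
    · simp only [LinearMap.comp_apply, LinearMap.add_apply, LinearMap.id_apply,
        show lin bdl z = 0 from h3, map_zero, add_zero] at this
      exact this
    simp only [LinearMap.comp_apply, LinearMap.add_apply, LinearMap.id_apply, lin_sg]
    by_cases h : S ∈ l
    · obtain ⟨T, l, rfl⟩ := List.exists_cons_of_ne_nil (List.ne_nil_of_mem h)
      have h4 : S ∉ l := fun e =>
        ((List.pairwise_cons.1 hl.1).1 S e).2 (hl.2 T List.mem_cons_self).1
      obtain rfl : S = T := (List.mem_cons.1 h).resolve_right h4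
      have h5 : lin c (cone S (bdl l)) = 0 := by
        rw [cone, lin_mp]
        exact map_zero' (fun l _ => by simp [c]) (mem_sup_univ _)
      simp [c, bdl, h4, h5, aa]
    · have h5 : lin c (bdl l) = cone S (bdl l) :=
        map_eq (fun l' hl' => by simp [c, show S ∉ l' from fun e => h (hl'.1.subset e)]) (bdl_mem l)
      simp [c, h, h5, bdl]

variable {X : Cx B} {A : Act X Γ} {D : Set B}

/-- A labelling of the simplices of `D` by sets of labelled points, at most one for each label in `Fin r`. -/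
structure Lab (A : Act X Γ) (D : Set B) (a : Γ →* Equiv.Perm Pt) {r : ℕ}
    (lab : B → Set (Fin r × Pt)) : Prop where
  eqv : ∀ h b, lab (A.a h b) = lbl _ a h '' lab b
  face : ∀ b, X.d (sg b) ∈ sup {c | lab b ⊆ lab c}
  ne : ∀ b ∈ D, (lab b).Nonempty
  fn : ∀ b, X.deg b ≠ 0 → Fn (lab b)

theorem exists_psi (hL : Lines a L) (hD : Dom A D) {m : ℕ} {lab : B → Set (Fin (m + 2) × Pt)}
    (hl : Lab A D a lab) : ∃ ψ, CMap A (std Γ) D ψ ∧
      ∀ b ∈ D, m + 1 ≤ X.deg b → Fr L (Prod.snd '' lab b) → ψ b = 0 := by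
  let Q : Set (Fin (m + 2) × Pt) → Prop := fun S => Fn S ∧ Fr L (Prod.snd '' S)
  have hQ : ∀ h S, Q S → Q (lbl _ a h '' S) := fun h S e =>
    ⟨e.1.img h, by rw [snd_img]; exact hL.fr h e.2⟩
  let N := LA (img (lbl (Fin (m + 2)) a))
  have hN : Dom N {l | ∀ S ∈ l, Q S} := by
    refine ⟨by simp [LC], fun h l hl S hS => ?_, fun l hl => ?_, fun h l hl h0 e => ?_⟩
    · obtain ⟨T, hT, rfl⟩ := List.mem_map.1 hS
      exact hQ h T (hl T hT)
    · simp only [LC, lin_sg]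
      refine sup_mono (fun c hc => ?_) (bdl_mem l)
      exact fun S hS => hl S (hc.1.subset hS)
    · cases l with
      | nil => exact (h0 rfl).elim
      | cons S l =>
        exact hL.free (hl S List.mem_cons_self).1 (hl S List.mem_cons_self).2
          (List.head_eq_of_cons_eq e)
  obtain ⟨χ, hχ⟩ := exists_cmap hN (std Γ) (LC_acyc 1)
  have fc : ∀ b ∈ D, X.deg b = 0 ∨ Fr L (Prod.snd '' lab b) →
      X.d (sg b) ∈ sup {c | c ∈ D ∧ (X.deg c = 0 ∨ Fr L (Prod.snd '' lab c))} := by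
    rintro b hb (h | h)
    · rw [X.eq_b0 b h, X.d_b0]; exact zero_mem _
    · exact sup_inter (hD.face b hb) (sup_mono (fun c hc => Or.inr (h.mono (image_mono hc)))
        (hl.face b))
  have fi : ∀ h b, X.deg (A.a h b) = 0 ∨ Fr L (Prod.snd '' lab (A.a h b)) ↔
      X.deg b = 0 ∨ Fr L (Prod.snd '' lab b) := fun h b => by
    rw [A.deg_a, hl.eqv, snd_img]
    exact or_congr_right ⟨hL.fr' h, hL.fr h⟩
  have hF : Dom A {b | b ∈ D ∧ (X.deg b = 0 ∨ Fr L (Prod.snd '' lab b))} :=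
    ⟨⟨hD.b0, Or.inl X.deg_b0⟩, fun h b hb => ⟨hD.inv h b hb.1, (fi h b).2 hb.2⟩,
      fun b hb => fc b hb.1 hb.2, fun h b hb => hD.free h b hb.1⟩
  obtain ⟨φ, hφ, p1⟩ := exists_cmap' hF N
    (fun b y => y ∈ sup {l | l.Pairwise (· ⊂ ·) ∧ ∀ T ∈ l, lab b ⊆ T ∧ Q T})
    (fun h b _ y hy => mp_mem (fun l hl' => by
      refine ⟨List.pairwise_map.2 (hl'.1.imp fun e => ?_), fun S hS => ?_⟩
      · exact (lbl _ a h).injective.image_strictMono e
      · obtain ⟨T, hT, rfl⟩ := List.mem_map.1 hS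
        exact ⟨by rw [hl.eqv]; exact image_mono (hl'.2 T hT).1, hQ h T (hl'.2 T hT).2⟩) hy)
    (sg_mem (by simp [LC])) (by
      intro b hb h0 φ e1 e2 e3
      have := fill_chain Q (lab b) ⟨hl.fn b h0, hb.2.resolve_left h0⟩ e2
        (lin_mem (fun c hc => sup_mono (fun l hl' => And.intro hl'.1 fun T hT =>
          And.intro (subset_trans hc.2 (hl'.2 T hT).1) (hl'.2 T hT).2) (e1 c hc.1.1 hc.1.2))
          (sup_inter (hF.face' hb) (hl.face b))) e3
      rwa [show X.deg b - 1 + 1 = X.deg b by omega] at this)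
  have hc := hφ.comp hχ fun b hb => sup_mono (fun l hl' T hT => (hl'.2 T hT).2) (p1 b hb)
  obtain ⟨ψ, hψ, p2⟩ := exists_cmap' hD (std Γ)
    (fun b y => X.deg b = 0 ∨ Fr L (Prod.snd '' lab b) → y = lin χ (φ b))
    (fun h b hb y hy e => by rw [hy ((fi h b).1 e), hc.eqv h b ⟨hb, (fi h b).1 e⟩])
    (fun _ => hc.zero.symm) (by
      intro b hb h0 φ' e1 e2 e3
      by_cases h : X.deg b = 0 ∨ Fr L (Prod.snd '' lab b)
      · refine ⟨_, hc.deg b ⟨hb, h⟩, fun _ => rfl, ?_⟩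
        rw [hc.d b ⟨hb, h⟩]
        exact lin_congr (fun c hc => (e1 c hc.1.1 hc.2 hc.1.2).symm) (hF.face' ⟨hb, h⟩)
      · obtain ⟨y, y1, y2⟩ := LC_acyc 1 _ _ e2 e3
        exact ⟨y, by rwa [show X.deg b - 1 + 1 = X.deg b by omega] at y1, fun e => (h e).elim, y2⟩)
  refine ⟨ψ, hψ, fun b hb h1 h2 => ?_⟩
  rw [p2 b hb (Or.inr h2), eq_zero_of_mem (sup_inter (p1 b ⟨hb, Or.inr h2⟩)
    (hφ.deg b ⟨hb, Or.inr h2⟩)), map_zero]
  rintro l ⟨⟨l1, l2⟩, l3⟩
  have := length_le (hi := m + 2) (l.map fun S => (Prod.fst '' S).ncard) 3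
    (List.pairwise_map.2 (List.Pairwise.imp_of_mem (fun _ hT e => size_lt e (l2 _ hT).2.1) l1))
    (fun x hx => by
      obtain ⟨T, hT, rfl⟩ := List.mem_map.1 hx
      refine ⟨hL.size_ge (l2 T hT).2.1 (l2 T hT).2.2, ?_⟩
      simpa using ncard_le_card (Prod.fst '' T))
  have l4 : l.length = X.deg b := l3
  rw [List.length_map] at this
  omega

theorem core (hL : Lines a L) (hD : Dom A D) {m : ℕ} {lab : B → Set (Fin (m + 2) × Pt)}
    (hl : Lab A D a lab) {μ : List Γ → F} (h1 : (std Γ).Inv univ μ) (h2 : (LC Γ).Coc (m + 3) μ)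
    (hV : ∀ x, ∀ S : Subgroup Γ, (∀ h ∈ S, a h x = x) →
      ((std Γ).comp S.subtype).Van (m + 2) ∧ ((std Γ).comp S.subtype).Van (m + 3))
    (hP : ∀ P ∈ L, ((std Γ).comp (stab (img a) P).subtype).Cob univ (m + 3) μ) :
    ∃ ψ, CMap A (std Γ) D ψ ∧ A.Cob D (m + 3) fun b => lin μ (ψ b) := by
  classical
  obtain ⟨ψ, hψ, p0⟩ := exists_psi hL hD hl
  refine ⟨ψ, hψ, ?_⟩
  have sg1 : ∀ h (T : Set Pt), (∃ x, a h '' T = {x}) → ∃ x, T = {x} := by
    rintro h T ⟨x, e⟩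
    exact ⟨a h⁻¹ x, by simpa [image_image] using congrArg (a h⁻¹ '' ·) e⟩
  have sg2 : ∀ h x, img a h {x} = {x} → a h x = x := fun h x e => by simpa [img_apply] using e
  obtain ⟨α, a1, a2⟩ := cob_family (std Γ) (img a) (fun T => (∃ x, T = {x}) ∨ T ∈ L)
    (fun h T e => e.imp (sg1 h T) (hL.inv' h)) (fun _ => μ) (fun h _ b _ => h1 h b trivial)
    (k := m + 3) (by
      rintro T (⟨x, rfl⟩ | e)
      · exact (hV x _ fun h e => sg2 h x e).2 μ (fun g => h1 g) h2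
      · exact hP T e)
  obtain ⟨η, e1, e2⟩ := cob_family (std Γ) (pr (img a)) (fun T => (∃ x, T.1 = {x}) ∧ T.2 ∈ L)
    (fun h T e => e.imp (sg1 h T.1) (hL.inv' h)) (fun T b => α T.1 b + α T.2 b)
    (fun h T b _ => congrArg₂ _ (a1 h T.1 b) (a1 h T.2 b)) (k := m + 2) (by
      rintro ⟨T, P⟩ ⟨⟨x, rfl : T = _⟩, e⟩
      refine (hV x _ fun h e => sg2 h x (congrArg Prod.fst e)).1 _ (fun g b _ => ?_) fun b hb => ?_
      · have u := a1 g {x} b
        have v := a1 g P b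
        rw [show img a g {x} = {x} from congrArg Prod.fst g.2] at u
        rw [show img a g P = P from congrArg Prod.snd g.2] at v
        exact congrArg₂ _ u v
      · rw [lin_add, ← a2 _ b (Or.inl ⟨x, rfl⟩) hb, ← a2 _ b (Or.inr e) hb, aa])
  let V : B → Set Pt := fun b => Prod.snd '' lab b
  have v1 : ∀ h b, V (A.a h b) = a h '' V b := fun h b => by simp only [V, hl.eqv, snd_img]
  have v2 : ∀ b ∈ D, X.d (sg b) ∈ sup {c | (c ∈ D ∧ X.deg c + 1 = X.deg b) ∧ V b ⊆ V c} :=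
    fun b hb => sup_inter (hD.face' hb) (sup_mono (fun c hc => image_mono hc) (hl.face b))
  let ω : Set Pt → B → F := fun T c =>
    if (V c).Subsingleton then 0 else lin (η (T, hull L (V c))) (ψ c)
  let θ : B → F := fun b => lin (α (hull L (V b))) (ψ b) +
    if (V b).Subsingleton then lin (ω (V b)) (X.d (sg b)) else 0
  have k1 : ∀ b ∈ D, X.deg b = m + 3 → ∀ T, (∃ x, T = {x}) ∨ T ∈ L →
      lin μ (ψ b) = lin (fun c => lin (α T) (ψ c)) (X.d (sg b)) := by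
    intro b hb hk T hT
    rw [← map_lin, ← hψ.d b hb]
    exact cob_lin_eq (D := univ) (fun c _ => a2 T c hT)
      (sup_mono (fun c hc => And.intro trivial (hc.trans hk)) (hψ.deg b hb))
  refine ⟨fun b => if X.deg b = m + 2 then θ b else 0, fun h b hb => ?_, fun b hb hk => ?_⟩
  · simp only [A.deg_a]
    split_ifs with hk
    swap
    · rfl
    simp only [θ, v1, sub_img, hψ.eqv h b hb, lin_mp, A.d_a]
    congr 1
    · by_cases e : Fr L (V b)
      · simp [p0 b hb (by omega) e]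
      · rw [hL.hull_img h e]
        exact lin_congr (fun c _ => a1 h _ c) (mem_sup_univ _)
    · split_ifs
      swap
      · rfl
      refine lin_congr (fun c hc => ?_) (v2 b hb)
      simp only [ω, v1, sub_img, hψ.eqv h c hc.1.1, lin_mp]
      split_ifs
      · rfl
      by_cases e : Fr L (V c)
      · simp [p0 c hc.1.1 (by have := hc.1.2; omega) e]
      · rw [hL.hull_img h e]
        exact lin_congr (fun x _ => e1 h (V b, hull L (V c)) x) (mem_sup_univ _)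
  rw [lin_congr (ψ := θ) (fun c hc => if_pos (by have := hc.1.2; omega)) (v2 b hb)]
  beta_reduce
  by_cases s1 : (V b).Subsingleton
  · obtain ⟨x, hx⟩ : ∃ x, V b = {x} := by
      obtain ⟨x, hx⟩ := (hl.ne b hb).image Prod.snd
      exact ⟨x, s1.eq_singleton_of_mem hx⟩
    rw [k1 b hb hk (V b) (Or.inl ⟨x, hx⟩), lin_congr (φ := θ)
      (ψ := fun c => lin (α (V b)) (ψ c) + lin (ω (V b)) (X.d (sg c))) (fun c hc => ?_) (v2 b hb),
      lin_add, ← map_lin, ← map_lin (lin (ω (V b))), lin_map, X.dd, map_zero, add_zero]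
    have c1 : X.deg c = m + 2 := by have := hc.1.2; omega
    by_cases s2 : (V c).Subsingleton
    · have : V c = V b := by rw [hx]; exact s2.eq_singleton_of_mem (hc.2 (hx ▸ rfl))
      simp only [θ, s2, if_true, hull_sub s2]
      rw [this]
    simp only [θ, s2, if_false, add_zero]
    by_cases e : Fr L (V c)
    · rw [p0 c hc.1.1 (by omega) e, map_zero, map_zero, zero_add]
      refine (map_zero' (fun y hy => ?_) (v2 c hc.1.1)).symm
      simp [ω, p0 y hy.1.1 (by have := hy.1.2; omega) (e.mono hy.2)]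
    · obtain ⟨P, p1, p2⟩ := exists_line s2 e
      have u := cob_lin_eq (D := univ) (fun y _ => e2 (V b, P) y ⟨⟨x, hx⟩, p1⟩)
        (sup_mono (fun y hy => And.intro trivial (hy.trans c1)) (hψ.deg c hc.1.1))
      rw [lin_add, hψ.d c hc.1.1, map_lin, lin_congr (ψ := ω (V b)) (fun y hy => ?_)
        (v2 c hc.1.1)] at u
      · rw [hL.hull_eq s2 p1 p2, ← u, ← add_assoc, aa, zero_add]
      have s3 : ¬ (V y).Subsingleton := fun z => s2 (z.anti hy.2)
      simp only [ω, s3, if_false]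
      by_cases e' : Fr L (V y)
      · simp [p0 y hy.1.1 (by have := hy.1.2; omega) e']
      · obtain ⟨Q, q1, q2⟩ := exists_line s3 e'
        rw [hL.hull_eq s3 q1 q2, ← hL.hull_eq s2 p1 p2, hL.hull_eq s2 q1 (hy.2.trans q2)]
  by_cases e : Fr L (V b)
  · rw [p0 b hb (by omega) e, map_zero]
    refine (map_zero' (fun c hc => ?_) (v2 b hb)).symm
    simp [θ, p0 c hc.1.1 (by have := hc.1.2; omega) (e.mono hc.2), (e.mono hc.2).1]
  · obtain ⟨P, p1, p2⟩ := exists_line s1 e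
    rw [k1 b hb hk P (Or.inr p1)]
    refine lin_congr (fun c hc => ?_) (v2 b hb)
    have s3 : ¬ (V c).Subsingleton := fun z => s1 (z.anti hc.2)
    simp only [θ, s3, if_false, add_zero]
    by_cases e' : Fr L (V c)
    · simp [p0 c hc.1.1 (by have := hc.1.2; omega) e']
    · obtain ⟨Q, q1, q2⟩ := exists_line s3 e'
      rw [hL.hull_eq s3 q1 q2, ← hL.hull_eq s1 p1 p2, hL.hull_eq s1 q1 (hc.2.trans q2)]

end Pool.Agent.Lib.MP_42281e_gt
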