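import Pool.Agent.Shared.Mod2Manifold

/-! Coverings defined by germs of sections, products of coverings, and lifted motion planners. -/

namespace Pool.Agent.Lib.MP_42281e_gt

open Pool.Agent.Shared.Mod2 Set Topology Filter Monoid Monoid.Coprod

section Tot

variable {X π : Type} [TopologicalSpace X] [Group π]

/-- The total space of the covering defined by germs of sections. -/
@[ext] structure Tot (b : X → X → π) where
  x : X
  g : π

variable {b : X → X → π}

instance : TopologicalSpace (Tot b) where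
  IsOpen W := ∀ z ∈ W, ∀ᶠ y in 𝓝 z.x, (⟨y, z.g * b z.x y⟩ : Tot b) ∈ W
  isOpen_univ _ _ := Eventually.of_forall fun _ => trivial
  isOpen_inter _ _ h h' z hz := (h z hz.1).and (h' z hz.2)
  isOpen_sUnion _ h z := fun ⟨W, a, c⟩ => (h W a z c).mono fun _ e => ⟨W, a, e⟩

instance : MulAction π (Tot b) where
  smul h z := ⟨z.x, h * z.g⟩
  one_smul z := Tot.ext rfl (one_mul z.g)
  mul_smul g h z := Tot.ext rfl (mul_assoc g h z.g)

lemma tot_cont {Z : Type} [TopologicalSpace Z] (hb : ∀ x, b x x = 1) {f : Tot b → Z}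
    (h : ∀ z : Tot b, ContinuousAt (fun y => f ⟨y, z.g * b z.x y⟩) z.x) : Continuous f :=
  ⟨fun W hW z hz => h z (hW.mem_nhds (by simpa [hb] using hz))⟩

lemma tot_quot (hb : ∀ x, b x x = 1) (hc : ∀ x, ∀ᶠ y in 𝓝 x, ∀ᶠ z in 𝓝 y, b x z = b x y * b y z) :
    IsQuotientCoveringMap (Tot.x : Tot b → X) π := by
  have c : Continuous (Tot.x : Tot b → X) := tot_cont hb fun _ => continuousAt_id
  have o : IsOpenMap (Tot.x : Tot b → X) := fun W hW => isOpen_iff_mem_nhds.2 (by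
    rintro _ ⟨z, hz, rfl⟩
    exact (hW z hz).mono fun y e => ⟨_, e, rfl⟩)
  refine ⟨o.isQuotientMap c fun x => ⟨⟨x, 1⟩, rfl⟩, ⟨fun g => ⟨fun W hW z hz => ?_⟩⟩,
    fun {z w} => ⟨fun e => ⟨z.g * w.g⁻¹, Tot.ext e.symm (inv_mul_cancel_right _ _)⟩, ?_⟩,
    fun z => ⟨{w | (∀ᶠ y in 𝓝 w.x, ∀ᶠ u in 𝓝 y, b z.x u = b z.x y * b y u) ∧ w.g = z.g * b z.x w.x},
      IsOpen.mem_nhds (fun w hw => ?_) ⟨hc z.x, by simp [hb]⟩, ?_⟩⟩
  · exact (hW _ hz).mono fun y e => mem_of_eq_of_mem (s := W)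
      (show g • (⟨y, z.g * b z.x y⟩ : Tot b) = ⟨y, g * z.g * b z.x y⟩ from
        Tot.ext rfl (mul_assoc _ _ _).symm) e
  · rintro ⟨g, rfl⟩
    rfl
  · filter_upwards [hw.1.eventually_nhds, hw.1.self_of_nhds] with y a e
    exact ⟨a, by rw [hw.2, e, mul_assoc]⟩
  · rintro g ⟨_, ⟨w, hw, rfl⟩, e⟩
    exact mul_eq_right.1 (e.2.trans hw.2.symm)

end Tot

variable {G K Y Y' M M' : Type} [Group G] [Group K] [TopologicalSpace Y] [TopologicalSpace Y']
  [TopologicalSpace M] [TopologicalSpace M'] [MulAction G Y] [MulAction K Y'] {p : Y → M}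
  {p' : Y' → M'}

lemma qfree (hp : IsQuotientCoveringMap p G) (g : G) (y : Y) (e : g • y = y) : g = 1 := by
  obtain ⟨U, u1, u2⟩ := hp.disjoint y
  exact u2 g ⟨y, ⟨y, mem_of_mem_nhds u1, e⟩, mem_of_mem_nhds u1⟩

lemma loc_eq (hp : IsQuotientCoveringMap p G) {Z : Type} [TopologicalSpace Z] {z : Z} {ν : Z → Y}
    {γ γ' : Z → G} (h : ContinuousAt (fun z => γ z • ν z) z)
    (h' : ContinuousAt (fun z => γ' z • ν z) z) (e : γ z = γ' z) : ∀ᶠ w in 𝓝 z, γ w = γ' w := by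
  obtain ⟨U, u1, u2⟩ := hp.disjoint (γ z • ν z)
  filter_upwards [h u1, h' (by simpa only [← e] using u1)] with w a c
  exact mul_inv_eq_one.1 (u2 _ ⟨_, ⟨_, c, by simp [mul_smul]⟩, a⟩)

lemma exists_germ (hp : IsQuotientCoveringMap p G) {n : M → Y} (hn : ∀ m, p (n m) = m) :
    ∃ c : M → M → G, (∀ m, c m m = 1) ∧ (∀ m, ContinuousAt (fun u => c m u • n u) m) ∧
      (∀ m, ∀ᶠ u in 𝓝 m, ∀ᶠ v in 𝓝 u, c m v = c m u * c u v) ∧
      ∀ m, ContinuousAt n m → ∀ᶠ u in 𝓝 m, c m u = 1 := by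
  have := hp.toContinuousConstSMul
  choose e e1 e2 using fun m => hp.isCoveringMap.isLocalHomeomorph (n m)
  have : ∀ m u, ∃ g : G, u ∈ (e m).target → g • n u = (e m).symm u := fun m u => by
    by_cases h : u ∈ (e m).target
    · obtain ⟨g, hg⟩ := hp.apply_eq_iff_mem_orbit.1
        (((congrFun (e2 m) _).trans ((e m).right_inv h)).trans (hn u).symm)
      exact ⟨g, fun _ => hg⟩
    · exact ⟨1, fun a => (h a).elim⟩
  choose c hc using this
  have e3 : ∀ m, e m (n m) = m := fun m => (congrFun (e2 m) _).symm.trans (hn m)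
  have t : ∀ m, m ∈ (e m).target := fun m => by simpa only [e3] using (e m).map_source (e1 m)
  have c1 : ∀ m, c m m = 1 := fun m => qfree hp _ _
    ((hc m m (t m)).trans (by simpa only [e3] using (e m).left_inv (e1 m)))
  have c2 : ∀ m, ∀ᶠ u in 𝓝 m, ContinuousAt (fun u => c m u • n u) u := fun m => by
    filter_upwards [(e m).open_target.mem_nhds (t m)] with u hu
    exact ((e m).continuousAt_symm hu).congr
      (Filter.mem_of_superset ((e m).open_target.mem_nhds hu) fun v hv => (hc m v hv).symm)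
  refine ⟨c, c1, fun m => (c2 m).self_of_nhds, fun m => (c2 m).mono fun u hu =>
    loc_eq hp hu ?_ (by simp [c1]), fun m h => loc_eq hp (c2 m).self_of_nhds (by simpa using h) (c1 m)⟩
  simp only [mul_smul]
  exact (c2 u).self_of_nhds.const_smul (c m u)

theorem exists_cover (hp : IsQuotientCoveringMap p G) (hp' : IsQuotientCoveringMap p' K)
    {n : M → Y} (hn : ∀ m, p (n m) = m) {n' : M' → Y'} (hn' : ∀ m, p' (n' m) = m)
    {X : Type} [TopologicalSpace X] (f : C(X, M)) (f' : C(X, M'))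
    (h : ∀ x, (∀ᶠ m in 𝓝 (f x), ContinuousAt n m) ∨ ContinuousAt n' (f' x)) :
    ∃ (Z : Type) (_ : TopologicalSpace Z) (_ : MulAction (G ∗ K) Z) (q : Z → X) (φ : C(Z, Y))
      (φ' : C(Z, Y')), IsQuotientCoveringMap q (G ∗ K) ∧ (∀ z, p (φ z) = f (q z)) ∧
      (∀ z, p' (φ' z) = f' (q z)) ∧ (∀ (g : G ∗ K) z, φ (g • z) = fst g • φ z) ∧
      ∀ (g : G ∗ K) z, φ' (g • z) = snd g • φ' z := by
  have := hp.toContinuousConstSMul
  have := hp'.toContinuousConstSMul
  obtain ⟨c, c1, c2, c3, c4⟩ := exists_germ hp hn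
  obtain ⟨d, d1, d2, d3, d4⟩ := exists_germ hp' hn'
  let b : X → X → G ∗ K := fun x y => inl (c (f x) (f y)) * inr (d (f' x) (f' y))
  have hb : ∀ x, b x x = 1 := fun x => by simp [b, c1, d1]
  refine ⟨Tot b, inferInstance, inferInstance, Tot.x,
    ⟨fun z => fst z.g • n (f z.x), tot_cont hb fun z => ?_⟩,
    ⟨fun z => snd z.g • n' (f' z.x), tot_cont hb fun z => ?_⟩, tot_quot hb fun x => ?_,
    fun z => (hp.map_smul _).trans (hn _), fun z => (hp'.map_smul _).trans (hn' _),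
    fun g z => (congrArg (· • _) (map_mul fst g z.g)).trans (mul_smul _ _ _),
    fun g z => (congrArg (· • _) (map_mul snd g z.g)).trans (mul_smul _ _ _)⟩
  · simp only [b, map_mul, mul_smul, fst_apply_inl, fst_apply_inr, one_smul]
    exact ((c2 _).comp f.continuous.continuousAt).const_smul (fst z.g)
  · simp only [b, map_mul, mul_smul, snd_apply_inl, snd_apply_inr, one_smul]
    exact ((d2 _).comp f'.continuous.continuousAt).const_smul (snd z.g)
  · have F := fun x => f.continuous.tendsto x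
    have F' := fun x => f'.continuous.tendsto x
    obtain a | a := h x
    · filter_upwards [F x (c3 _), F' x (d3 _), F x a] with y y1 y2 y3
      filter_upwards [F y y1, F' y y2, F y (c4 _ y3)] with z z1 z2 z3
      simp only [mem_preimage, mem_ofPred_eq] at z1 z2 z3
      simp [b, z1, z2, z3, mul_assoc]
    · filter_upwards [F x (c3 _), F' x (d3 _), F' x (d4 _ a)] with y y1 y2 y3
      filter_upwards [F y y1, F' y y2] with z z1 z2
      simp only [mem_preimage, mem_ofPred_eq] at z1 z2 y3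
      simp [b, z1, z2, y3, mul_assoc]

/-- The product, with the action of the product of the groups. -/
def Pr (Y Y' : Type) : Type := Y × Y'

instance : TopologicalSpace (Pr Y Y') := inferInstanceAs (TopologicalSpace (Y × Y'))

instance [ContractibleSpace Y] [ContractibleSpace Y'] : ContractibleSpace (Pr Y Y') :=
  inferInstanceAs (ContractibleSpace (Y × Y'))

instance : MulAction (G × K) (Pr Y Y') where
  smul g z := (g.1 • z.1, g.2 • z.2)
  one_smul _ := Prod.ext (one_smul G _) (one_smul K _)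
  mul_smul _ _ _ := Prod.ext (mul_smul _ _ _) (mul_smul _ _ _)

lemma pr_quot (hp : IsQuotientCoveringMap p G) (hp' : IsQuotientCoveringMap p' K) :
    IsQuotientCoveringMap (fun z : Pr Y Y' => (p z.1, p' z.2)) (G × K) := by
  have := hp.toContinuousConstSMul
  have := hp'.toContinuousConstSMul
  refine ⟨(hp.isOpenQuotientMap.prodMap hp'.isOpenQuotientMap).isQuotientMap,
    ⟨fun g => (continuous_const_smul g.1).prodMap (continuous_const_smul g.2)⟩,
    fun {z w} => ⟨fun e => ?_, ?_⟩, fun z => ?_⟩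
  · obtain ⟨g, hg⟩ := hp.apply_eq_iff_mem_orbit.1 (congrArg Prod.fst e)
    obtain ⟨k, hk⟩ := hp'.apply_eq_iff_mem_orbit.1 (congrArg Prod.snd e)
    exact ⟨(g, k), Prod.ext hg hk⟩
  · rintro ⟨g, rfl⟩
    exact Prod.ext (hp.map_smul _) (hp'.map_smul _)
  · obtain ⟨U, u1, u2⟩ := hp.disjoint z.1
    obtain ⟨W, w1, w2⟩ := hp'.disjoint z.2
    refine ⟨U ×ˢ W, prod_mem_nhds u1 w1, ?_⟩
    rintro g ⟨_, ⟨w, hw, rfl⟩, e⟩
    exact Prod.ext (u2 _ ⟨_, ⟨_, hw.1, rfl⟩, e.1⟩) (w2 _ ⟨_, ⟨_, hw.2, rfl⟩, e.2⟩)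

/-- Pairs of points that are joined, up to `g`, by the lift of the planned path. -/
def OO (p : Y → M) {U : Set (M × M)} (s : C(U, C(I, M))) (g : G) : Set (Pr Y Y) :=
  {z | ∃ (h : (p z.1, p z.2) ∈ U) (γ : C(I, Y)), γ 0 = z.1 ∧ γ 1 = g • z.2 ∧ p ∘ γ = s ⟨_, h⟩}

variable {U : Set (M × M)} {s : C(U, C(I, M))}

lemma OO_smul (hp : IsQuotientCoveringMap p G) (a : G × G) {g : G} {z : Pr Y Y}
    (h : z ∈ OO p s g) : a • z ∈ OO p s (a.1 * (g * a.2⁻¹)) := by
  have := hp.toContinuousConstSMul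
  obtain ⟨h, γ, h0, h1, h2⟩ := h
  have e : (p (a.1 • z.1), p (a.2 • z.2)) = (p z.1, p z.2) :=
    Prod.ext (hp.map_smul _) (hp.map_smul _)
  refine ⟨e ▸ h, ⟨fun t => a.1 • γ t, γ.continuous.const_smul _⟩, congrArg _ h0, ?_, ?_⟩
  · change a.1 • γ 1 = _ • a.2 • z.2
    simp [h1, mul_smul]
  · exact ((funext fun t => hp.map_smul _).trans h2).trans
      (congrArg (fun u => ⇑(s u)) (Subtype.ext e.symm))

lemma OO_uniq (hp : IsQuotientCoveringMap p G) {g k : G} {z : Pr Y Y} (h : z ∈ OO p s g)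
    (h' : z ∈ OO p s k) : g = k := by
  obtain ⟨_, γ, h0, h1, h2⟩ := h
  obtain ⟨_, δ, k0, k1, k2⟩ := h'
  have := congrFun (hp.isCoveringMap.eq_of_comp_eq γ.continuous δ.continuous (h2.trans k2.symm) 0
    (h0.trans k0.symm)) 1
  rw [h1, k1, ← inv_smul_eq_iff, smul_smul] at this
  exact (inv_mul_eq_one.1 (qfree hp _ _ this)).symm

lemma OO_simplex (hp : IsQuotientCoveringMap p G) (hs : ∀ u, s u 0 = u.1.1 ∧ s u 1 = u.1.2) {k : ℕ}
    (σ : C(Sp k, Pr Y Y)) (h : ∀ t, (p (σ t).1, p (σ t).2) ∈ U) : ∃ g : G, ∀ t, σ t ∈ OO p s g := by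
  have c := hp.continuous
  have c1 : Continuous fun t => (σ t).1 := continuous_fst.comp σ.continuous
  have c2 : Continuous fun t => (σ t).2 := continuous_snd.comp σ.continuous
  let H : C(I × Sp k, M) := ⟨fun x => s ⟨_, h x.2⟩ x.1, by fun_prop⟩
  let L := hp.isCoveringMap.liftHomotopy H ⟨_, c1⟩ fun t => (hs _).1
  have l1 := hp.isCoveringMap.liftHomotopy_lifts H ⟨_, c1⟩ fun t => (hs _).1
  obtain ⟨g, hg⟩ := exists_smul hp (σ := ⟨_, c2⟩) (τ := ⟨fun t => L (1, t), by fun_prop⟩)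
    (funext fun t => ((congrFun l1 (1, t)).trans (hs _).2).symm)
  exact ⟨g, fun t => ⟨h t, ⟨fun u => L (u, t), by fun_prop⟩,
    hp.isCoveringMap.liftHomotopy_zero H ⟨_, c1⟩ (fun t => (hs _).1) t, (hg t).symm, funext fun u => congrFun l1 (u, t)⟩⟩

end Pool.Agent.Lib.MP_42281e_gt
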