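import Pool.Agent.Lib.MP_42281e_gt.Tree

/-! The tree of a free product of two groups. -/

namespace Pool.Agent.Lib.MP_42281e_gt

open Pool.Agent.Shared.Mod2 Set Monoid Monoid.Coprod

variable {G K : Type} [Group G] [Group K]

/-- The vertices of the tree of a free product. -/
abbrev VV (G K : Type) [Group G] [Group K] : Type :=
  ((G ∗ K) ⧸ (inl : G →* G ∗ K).range) ⊕ ((G ∗ K) ⧸ (inr : K →* G ∗ K).range)

lemma exists_prim (η : G ∗ K → F) : ∃ ζ : G ∗ K → F, (∀ g a, ζ (g * inl a) = ζ g) ∧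
    ∀ g b, ζ (g * inr b) + η (g * inr b) = ζ g + η g := by
  let r : G ∗ K →* Equiv.Perm ((G ∗ K) × F) :=
    { toFun := fun w => (Equiv.mulRight w⁻¹).prodCongr (Equiv.refl F)
      map_one' := by ext <;> simp
      map_mul' := fun a b => by ext <;> simp [mul_assoc] }
  let s : Equiv.Perm ((G ∗ K) × F) := Function.Involutive.toPerm (fun x => (x.1, x.2 + η x.1))
    fun x => by simp [add_assoc, aa]
  let Φ := lift (r.comp inl) (((MulAut.conj s).toMonoidHom.comp r).comp inr)
  have a1 : ∀ a x, Φ (inl a) x = (x.1 * (inl a)⁻¹, x.2) := fun _ _ => rfl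
  have a2 : ∀ b x, Φ (inr b) x = (x.1 * (inr b)⁻¹, x.2 + η x.1 + η (x.1 * (inr b)⁻¹)) :=
    fun _ _ => rfl
  have a3 : ∀ w x, (Φ w x).1 = x.1 * w⁻¹ := fun w => by
    induction w using Coprod.induction_on with
    | inl a => exact fun _ => rfl
    | inr b => exact fun _ => rfl
    | mul u v hu hv => intro x; rw [map_mul, Equiv.Perm.mul_apply, hu, hv, mul_inv_rev, mul_assoc]
  refine ⟨fun g => (Φ g⁻¹ (1, 0)).2, fun g a => ?_, fun g b => ?_⟩
  · simp only [mul_inv_rev, map_mul, Equiv.Perm.mul_apply, ← map_inv (inl : G →* G ∗ K), a1]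
  · simp only [mul_inv_rev, map_mul, Equiv.Perm.mul_apply, ← map_inv (inr : K →* G ∗ K), a2, a3]
    simp [add_assoc, aa]

/-- A vertex of the first kind. -/
def v1 (g : G ∗ K) : VV G K := Sum.inl (QuotientGroup.mk g)

/-- A vertex of the second kind. -/
def v2 (g : G ∗ K) : VV G K := Sum.inr (QuotientGroup.mk g)

lemma vv_cases (v : VV G K) : ∃ g, v = v1 g ∨ v = v2 g := by
  obtain (⟨⟨g⟩⟩ | ⟨⟨g⟩⟩) := v
  · exact ⟨g, Or.inl rfl⟩
  · exact ⟨g, Or.inr rfl⟩

lemma smul_v1 (g x : G ∗ K) : g • v1 x = v1 (g * x) := rfl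

lemma smul_v2 (g x : G ∗ K) : g • v2 x = v2 (g * x) := rfl

lemma td : TD (G ∗ K) (v1 1 : VV G K) (v2 1) := by
  have e3 : ∀ (g : G ∗ K) a, v1 (g * inl a) = v1 g :=
    fun g a => congrArg Sum.inl (QuotientGroup.mk_mul_of_mem g ⟨a, rfl⟩)
  have e4 : ∀ (g : G ∗ K) a, v2 (g * inr a) = v2 g :=
    fun g a => congrArg Sum.inr (QuotientGroup.mk_mul_of_mem g ⟨a, rfl⟩)
  refine ⟨fun v => ?_, fun g => Sum.inl_ne_inr, fun η => ?_, fun c hc => ?_⟩
  · simpa only [smul_v1, smul_v2, mul_one] using vv_cases v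
  · obtain ⟨ζ, z1, z2⟩ := exists_prim η
    refine ⟨Sum.elim (Quotient.lift ζ fun x y e => ?_)
      (Quotient.lift (fun g => ζ g + η g) fun x y e => ?_), fun e => ?_⟩
    · obtain ⟨a, e⟩ := QuotientGroup.leftRel_apply.1 e
      rw [← z1 x a, e, mul_inv_cancel_left]
    · obtain ⟨a, e⟩ := QuotientGroup.leftRel_apply.1 e
      rw [← z2 x a, e, mul_inv_cancel_left]
    · rw [smul_v1, smul_v2, mul_one]
      change ζ e + (ζ e + η e) = η e
      rw [← add_assoc, aa, zero_add]
  · simp only [smul_v1, smul_v2, mul_one] at hc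
    have k : ∀ w g : G ∗ K, c (v1 (g * w)) = c (v1 g) := fun w => by
      induction w using Coprod.induction_on with
      | inl a => intro g; rw [e3]
      | inr b => intro g; rw [hc, e4, hc]
      | mul u v hu hv => intro g; rw [← mul_assoc, hv, hu]
    have k' : ∀ v, c v = c (v1 1) := fun v => by
      obtain ⟨g, rfl | rfl⟩ := vv_cases v
      · simpa using k g 1
      · exact (hc g).symm.trans (by simpa using k g 1)
    exact fun v w => (k' v).trans (k' w).symm

lemma stab_cases (v : VV G K) :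
    (∀ x g : G ∗ K, g • x • v = x • v → snd g = 1 ∧ (fst g = 1 → g = 1)) ∨
    ∀ x g : G ∗ K, g • x • v = x • v → fst g = 1 ∧ (snd g = 1 → g = 1) := by
  obtain ⟨u, rfl | rfl⟩ := vv_cases v
  · refine Or.inl fun x g e => ?_
    obtain ⟨a, e⟩ := (QuotientGroup.eq (a := x * u) (b := g * (x * u))).1 (Sum.inl.inj e).symm
    generalize x * u = y at e
    obtain rfl : g = y * inl a * y⁻¹ := by simp [e, mul_assoc]
    exact ⟨by simp, fun e => by simp [show a = 1 by simpa using e]⟩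
  · refine Or.inr fun x g e => ?_
    obtain ⟨a, e⟩ := (QuotientGroup.eq (a := x * u) (b := g * (x * u))).1 (Sum.inr.inj e).symm
    generalize x * u = y at e
    obtain rfl : g = y * inr a * y⁻¹ := by simp [e, mul_assoc]
    exact ⟨by simp, fun e => by simp [show a = 1 by simpa using e]⟩

lemma cd_stab {k : ℕ} (c1 : CD G k) (c2 : CD K k) (v : VV G K) :
    CD (MulAction.stabilizer (G ∗ K) v) k := by
  obtain h | h := stab_cases v
  · exact c1.inj (ι := fst.comp (Subgroup.subtype _)) ((injective_iff_map_eq_one _).2 fun g e =>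
      Subtype.ext ((h 1 g (by rw [one_smul]; exact g.2)).2 e))
  · exact c2.inj (ι := snd.comp (Subgroup.subtype _)) ((injective_iff_map_eq_one _).2 fun g e =>
      Subtype.ext ((h 1 g (by rw [one_smul]; exact g.2)).2 e))

theorem main_free {m : ℕ} (c : ∀ k, m + 3 ≤ k → CD G k ∧ CD K k)
    {B B' : Type} {X : Cx B} {A : Act X ((G ∗ K) × (G ∗ K))} {D : Set B} (hD : Dom A D)
    {lab : B → Set (Fin (m + 3) × (G ∗ K))} (hl : Lab A D (act _) lab) {X' : Cx B'}
    {A' : Act X' (G × K)} (hX : X'.Acyc) {μ : B' → F} (h1 : A'.Inv univ μ) (h2 : X'.Coc (m + 4) μ)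
    {φ : B → Ch B'} (hφ : CMap A (A'.comp (fst.prodMap snd)) D φ) :
    A.Cob D (m + 4) fun b => lin μ (φ b) := by
  refine td.main (cd_stab (c _ le_rfl).1 (c _ le_rfl).2) (cd_stab (c _ (by omega)).1
    (c _ (by omega)).2) _ (fun x v => ?_) hD hl hX h1 h2 hφ
  obtain h | h := stab_cases v
  · exact ⟨(MonoidHom.snd G K).ker, (c _ (by omega)).1.inj
      (ι := (MonoidHom.fst G K).comp (Subgroup.subtype _)) ((injective_iff_map_eq_one _).2
        fun g e => Subtype.ext (Prod.ext e g.2)), fun a _ e => (h 1 a.2 (by simpa using e)).1⟩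
  · exact ⟨(MonoidHom.fst G K).ker, (c _ (by omega)).2.inj
      (ι := (MonoidHom.snd G K).comp (Subgroup.subtype _)) ((injective_iff_map_eq_one _).2
        fun g e => Subtype.ext (Prod.ext g.2 e)), fun a e _ => (h x a.1 e).1⟩

end Pool.Agent.Lib.MP_42281e_gt
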