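import Pool.Agent.Lib.MP_42281e_gt.Cover
import Pool.Agent.Lib.MP_42281e_gt.Free

/-! A manifold with two collapse maps of degree one onto aspherical manifolds has no small system
of motion planners. -/

namespace Pool.Agent.Lib.MP_42281e_gt

open Pool.Agent.Shared.Mod2 Set Topology Filter Monoid Monoid.Coprod

variable {G K Y Y' M M' X E : Type} [Group G] [Group K] [TopologicalSpace Y] [TopologicalSpace Y']
  [TopologicalSpace M] [TopologicalSpace M'] [TopologicalSpace X] [MulAction G Y] [MulAction K Y']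
  {p : Y → M} {p' : Y' → M'} [NormedAddCommGroup E] [NormedSpace ℝ E]

lemma smap_smul [ContinuousConstSMul G Y] {q : C(Y, M)} (hq : IsQuotientCoveringMap q G) (g : G)
    (σ : Sx Y) : smap q ((sAct G Y).a g σ) = smap q σ :=
  congrArg (Sigma.mk σ.1) (ContinuousMap.ext fun _ => hq.map_smul g)

lemma descend' [ContinuousConstSMul G Y] {q : C(Y, M)} (hq : IsQuotientCoveringMap q G)
    {μ : Sx Y → F} (h : (sAct G Y).Inv univ μ) : ∃ ν : Sx M → F, ∀ x, lin ν (cm q x) = lin μ x := by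
  obtain ⟨ν, hν⟩ := descend (smap q) μ (by
    rintro ⟨j, σ⟩ ⟨j', τ⟩ e
    obtain rfl : j = j' := congrArg Sigma.fst e
    obtain ⟨g, hg⟩ := exists_smul hq (σ := σ) (τ := τ)
      (congrArg DFunLike.coe (eq_of_heq (Sigma.mk.inj e).2))
    rw [← h g _ trivial]
    exact congrArg μ (congrArg (Sigma.mk j) (ContinuousMap.ext hg)))
  exact ⟨ν, fun x => by simp only [cm, lin_mp, hν]⟩

lemma sd_range (σ : Sx Y) : sd (sg σ) ∈ sup {τ : Sx Y | ∀ t, τ.2 t ∈ range σ.2} := by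
  obtain ⟨_ | k, σ⟩ := σ
  · rw [sd_zero (s := univ) (sg_mem ⟨rfl, fun _ => trivial⟩)]
    exact zero_mem _
  · refine sup_mono ?_ (sd_mem (s := range σ) (k := k) (sg_mem ⟨rfl, fun t => ⟨t, rfl⟩⟩))
    exact fun _ h => h.2

theorem no_cover [FiniteDimensional ℝ E] [T2Space M] [T2Space M'] [T2Space X] [CompactSpace X]
    [ContractibleSpace Y] [ContractibleSpace Y'] (hp : IsQuotientCoveringMap p G)
    (hp' : IsQuotientCoveringMap p' K) (hM : LE E M) (hM' : LE E M') (hX : LE E X)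
    {n : M → Y} (hn : ∀ m, p (n m) = m) {n' : M' → Y'} (hn' : ∀ m, p' (n' m) = m)
    (f : C(X, M)) (f' : C(X, M'))
    (h : ∀ x, (∀ᶠ m in 𝓝 (f x), ContinuousAt n m) ∨ ContinuousAt n' (f' x))
    {φ φ' : C(E, X)} (e1 : IsOpenEmbedding φ) (e2 : IsOpenEmbedding (f.comp φ))
    (e3 : ∀ y, f y = f (φ 0) → y = φ 0) (e1' : IsOpenEmbedding φ')
    (e2' : IsOpenEmbedding (f'.comp φ')) (e3' : ∀ y, f' y = f' (φ' 0) → y = φ' 0)
    {m : ℕ} (hm : 2 * Module.finrank ℝ E = m + 3) {U : Fin (m + 3) → Set (X × X)}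
    (hU : ∀ j, IsOpen (U j)) (hc : ⋃ j, U j = univ) (s : ∀ j, C(U j, C(I, X)))
    (hs : ∀ j u, s j u 0 = u.1.1 ∧ s j u 1 = u.1.2) : False := by
  classical
  have := FiniteDimensional.proper_real E
  have hE := lh _ E rfl
  obtain ⟨z, z1, z2, z3⟩ := exists_fund (m := m + 2)
    (lh _ (E × E) (by rw [Module.finrank_prod]; omega)) (hX.prod hX)
  obtain ⟨T, t1, t2⟩ := small hU (by rw [hc]; exact z1 : z ∈ Cs _ _)
  rw [z2, map_zero, add_zero] at t2
  have z4 := not_tr_map (f := f.prodMap f') (φ := φ.prodMap φ') (e1.prodMap e1') (e2.prodMap e2')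
    (fun y e => Prod.ext (e3 _ (congrArg Prod.fst e)) (e3' _ (congrArg Prod.snd e))) z1 z2 (z3 _)
  obtain ⟨L, l1, l2⟩ := ((Cs univ (m + 5)).map sd).exists_dual_map_eq_bot_of_notMem
    (x := cm (f.prodMap f') z) (fun ⟨b, b1, b2⟩ => z4 (b2 ▸ Tr.of_bd _ b1)) inferInstance
  have l3 : ∀ b ∈ Cs univ (m + 5), L (sd b) = 0 := fun b hb =>
    (Submodule.eq_bot_iff _).1 l2 _ ⟨_, ⟨b, hb, rfl⟩, rfl⟩
  obtain ⟨Z, _, _, q, ψ, ψ', hq, p1, p2, p3, p4⟩ := exists_cover hp hp' hn hn' f f' h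
  have hP := pr_quot hp hp'
  have hQ := pr_quot hq hq
  have := hP.toContinuousConstSMul
  have := hQ.toContinuousConstSMul
  let P : C(Pr Y Y', M × M') := ⟨_, hP.continuous⟩
  let Q : C(Pr Z Z, X × X) := ⟨_, hQ.continuous⟩
  let Ψ : C(Pr Z Z, Pr Y Y') := ψ.prodMap ψ'
  let A := sAct ((G ∗ K) × (G ∗ K)) (Pr Z Z)
  let lab : Sx (Pr Z Z) → Set (Fin (m + 3) × (G ∗ K)) := fun σ =>
    {x | ∀ t, σ.2 t ∈ OO q (s x.1) x.2}
  have hl : Lab A {σ | (lab σ).Nonempty} (act _) lab := by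
    refine ⟨fun a σ => Set.ext fun x => ⟨fun e => ⟨(x.1, act _ a⁻¹ x.2), fun t => ?_, ?_⟩, ?_⟩,
      fun σ => sup_mono ?_ (sd_range σ), fun _ e => e, ?_⟩
    · have := OO_smul hq a⁻¹ (show a • σ.2 t ∈ _ from e t)
      rwa [inv_smul_smul] at this
    · simp [lbl_apply]
    · rintro ⟨y, hy, rfl⟩ t
      exact OO_smul hq a (hy t)
    · intro τ hτ x hx t
      obtain ⟨u, e⟩ := hτ t
      exact e ▸ hx u
    · rintro ⟨_ | k, σ⟩ h0 j x y hx hy
      · exact (h0 rfl).elim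
      · exact OO_uniq hq (hx (stdSimplex.vertex 0)) (hy (stdSimplex.vertex 0))
  have hD : Dom A {σ | (lab σ).Nonempty} :=
    ⟨⟨(0, 1), fun t : Sp 0 => isEmptyElim t⟩, fun a σ e => by
      rw [mem_ofPred_eq, hl.eqv]; exact e.image _,
      fun σ e => sup_mono (fun _ hτ => e.mono hτ) (hl.face σ),
      fun a σ _ => sAct_free (qfree hQ) a σ⟩
  obtain ⟨θ, h1, h2⟩ := main_free (m := m) (fun k hk => by
      obtain ⟨k, rfl⟩ : ∃ j, k = j + 1 := ⟨k - 1, by omega⟩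
      exact ⟨cd_deck hp hE hM (by omega), cd_deck hp' hE hM' (by omega)⟩) hD hl
    (A' := sAct (G × K) (Pr Y Y')) SC_acyc (μ := fun σ => L (sg (smap P σ)))
    (fun g σ _ => congrArg (fun τ => L (sg τ)) (smap_smul (q := P) hP g σ))
    (fun σ e => by
      rw [← lin_mp (fun τ => L (sg τ)), lin_map]
      exact (congrArg L (cm_sd P _)).trans (l3 _ (cm_mem (mapsTo_univ _ univ)
        (sg_mem ⟨e, fun _ => trivial⟩))))
    (φ := fun σ => cm Ψ (sg σ))
    ⟨by rw [cm_sg]; exact congrArg sg ((SC _).eq_b0 _ rfl), fun σ _ => by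
      rw [cm_sg]; exact sg_mem rfl, fun σ _ => by rw [lin_map]; exact (cm_sd _ _).symm,
      fun a σ _ => by
        rw [cm_sg, cm_sg, mp_sg]
        exact congrArg (fun τ => sg (Sigma.mk σ.1 τ))
          (ContinuousMap.ext fun t => Prod.ext (p3 _ _) (p4 _ _))⟩
  obtain ⟨w, w1, w2⟩ := exists_mp (s := {σ | (lab σ).Nonempty ∧ σ.1 = m + 4}) (f := smap Q) (by
    rintro ⟨k, σ⟩ ⟨rfl, j, hj⟩
    obtain ⟨τ, e⟩ := exists_lift hQ.isCoveringMap hQ.surjective σ
    obtain ⟨g, hg⟩ := OO_simplex hq (hs j) τ fun t => mem_of_eq_of_mem (congrFun e t) (hj t)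
    exact ⟨⟨_, τ⟩, ⟨⟨(j, g), hg⟩, rfl⟩,
      congrArg (Sigma.mk _) (ContinuousMap.ext (congrFun e))⟩) t2
  obtain ⟨ν, hν⟩ := descend' (q := Q) hQ (μ := fun σ => if (lab σ).Nonempty then θ σ else 0)
    fun a σ _ => by
      have := hl.eqv a σ
      simp only [A] at this
      simp only [this, image_nonempty]
      split_ifs with e
      · exact h1 a σ e
      · rfl
  have k1 := cob_lin_eq h2 w1
  have k2 : sd w ∈ sup {σ | (lab σ).Nonempty} := map_mem (fun σ e => hD.face σ e.1) w1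
  rw [show lin θ ((SC _).d w) = lin ν (cm Q (sd w)) by
      rw [hν]; exact lin_congr (fun σ e => (if_pos e).symm) k2,
    cm_sd, show cm Q w = _ from w2, map_add, z2, sd_sd, add_zero, map_zero, ← map_lin, lin_map,
    ← lin_mp (fun τ => L (sg τ)), lin_map] at k1
  have k3 : P.comp Ψ = (f.prodMap f').comp Q :=
    ContinuousMap.ext fun z => Prod.ext (p1 _) (p2 _)
  rw [show mp (smap P) (cm Ψ w) = cm (f.prodMap f') (cm Q w) by
      rw [cm_cm, ← k3]; exact cm_cm P Ψ w, show cm Q w = _ from w2, map_add, map_add, cm_sd,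
    l3 _ (cm_mem (mapsTo_univ _ univ) (t1 _ _ _ z1)), add_zero] at k1
  exact l1 k1

end Pool.Agent.Lib.MP_42281e_gt
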