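import Pool.Agent.Shared.Mod2Manifold

/-! Connected sums of topological manifolds. -/

namespace Pool.Agent.Lib.MP_42281e_gt

open Pool.Agent.Shared.Mod2 Set Topology Filter Metric Function

variable {E M N X : Type} [NormedAddCommGroup E] [NormedSpace ℝ E] [TopologicalSpace M]
  [TopologicalSpace N] [TopologicalSpace X]

/-- The inversion in the unit sphere. -/
noncomputable def iv (v : E) : E := (‖v‖ ^ 2)⁻¹ • v

lemma norm_iv (v : E) : ‖iv v‖ = ‖v‖⁻¹ := by
  rw [iv, norm_smul, norm_inv, norm_pow, norm_norm]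
  by_cases h : ‖v‖ = 0
  · simp [h]
  · field_simp

lemma iv_iv (v : E) : iv (iv v) = v := by
  rw [iv, norm_iv, iv, smul_smul]
  by_cases h : v = 0
  · simp [h]
  · simp [h]

lemma iv_ne {v : E} (h : v ≠ 0) : iv v ≠ 0 := by
  rw [← norm_ne_zero_iff, norm_iv]; simpa using h

lemma iv_cont {v : E} (h : v ≠ 0) : ContinuousAt iv v :=
  ((continuous_norm.continuousAt.pow 2).inv₀ (by simpa using h)).smul continuousAt_id

lemma exists_ball_emb {a : E} {U : Set E} (hU : U ∈ 𝓝 a) :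
    ∃ e : C(E, E), IsOpenEmbedding e ∧ e 0 = a ∧ ∀ v, e v ∈ U := by
  obtain ⟨r, r0, r1⟩ := Metric.mem_nhds_iff.1 hU
  let e := OpenPartialHomeomorph.univBall (E := E) a r
  have e1 : IsOpenEmbedding e := e.isOpenEmbedding (OpenPartialHomeomorph.univBall_source a r)
  exact ⟨⟨e, e1.continuous⟩, e1, OpenPartialHomeomorph.univBall_apply_zero a r,
    fun x => r1 (OpenPartialHomeomorph.univBall_target a r0 ▸
      e.map_source (by rw [OpenPartialHomeomorph.univBall_source]; trivial))⟩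

lemma le_open (h : LE E M) {U : Set M} (hU : IsOpen U) : LE E U := fun y => by
  obtain ⟨φ, a, b⟩ := h y
  obtain ⟨e, e1, e2, e3⟩ := exists_ball_emb (a := 0) ((hU.preimage φ.continuous).mem_nhds
    (show φ 0 ∈ U from b ▸ y.2))
  exact ⟨⟨fun v => ⟨φ (e v), e3 v⟩, by fun_prop⟩,
    IsOpenEmbedding.of_comp _ hU.isOpenEmbedding_subtypeVal (a.comp e1),
    Subtype.ext ((congrArg φ e2).trans b)⟩

lemma le_lpc (h : LE E M) : LocallyPathConnectedSpace M := by
  choose φ h1 h2 using h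
  refine LocallyPathConnectedSpace.of_bases (p := fun _ (r : ℝ) => 0 < r)
    (s := fun x r => φ x '' ball 0 r) (fun x => ?_) fun x r hr =>
      ((convex_ball 0 r).isPathConnected (nonempty_ball.2 hr)).image (φ x).continuous
  have := (nhds_basis_ball (x := (0 : E))).map (φ x)
  rwa [(h1 x).map_nhds_eq, h2] at this

lemma le_cover {Y : Type} [TopologicalSpace Y] {p : Y → M} (hp : IsCoveringMap p) (h : LE E M) :
    LE E Y := fun y => by
  obtain ⟨φ, a, b, c⟩ := h.lift hp y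
  exact ⟨φ, a.isOpenEmbedding_of_injective b.of_comp, c⟩

lemma exists_sec {Y : Type} [TopologicalSpace Y] {p : Y → M} (hp : IsCoveringMap p)
    (hs : Surjective p) {i : E → M} (hi : IsOpenEmbedding i) :
    ∃ n : M → Y, (∀ m, p (n m) = m) ∧ ∀ m ∈ range i, ContinuousAt n m := by
  obtain ⟨y, hy⟩ := hs (i 0)
  obtain ⟨l, ⟨-, h⟩, -⟩ := hp.existsUnique_continuousMap_lifts ⟨i, hi.continuous⟩ 0 y hy
  refine ⟨extend i l (surjInv hs), fun m => ?_, ?_⟩
  · by_cases e : ∃ v, i v = m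
    · obtain ⟨v, rfl⟩ := e
      rw [hi.injective.extend_apply]
      exact congrFun h v
    · rw [extend_apply' _ _ _ e, surjInv_eq hs]
  · rintro _ ⟨v, rfl⟩
    rw [← hi.continuousAt_iff, extend_comp hi.injective]
    exact l.continuous.continuousAt

/-- `X` is the union of `M` and `N`, each with a point removed, glued by the inversion. -/
structure CS (i : E → M) (j : E → N) (a : {x // x ≠ i 0} → X) (b : {y // y ≠ j 0} → X) :
    Prop where
  hi : IsOpenEmbedding i
  hj : IsOpenEmbedding j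
  ha : IsOpenEmbedding a
  hb : IsOpenEmbedding b
  cover : ∀ z, z ∈ range a ∨ z ∈ range b
  eq : ∀ x y, a x = b y ↔ ∃ v, x.1 = i v ∧ y.1 = j (iv v)

variable {i : E → M} {j : E → N} {a : {x // x ≠ i 0} → X} {b : {y // y ≠ j 0} → X}

lemma CS.symm (h : CS i j a b) : CS j i b a :=
  ⟨h.hj, h.hi, h.hb, h.ha, fun z => (h.cover z).symm, fun y x => by
    rw [eq_comm, h.eq]
    exact ⟨fun ⟨v, c, d⟩ => ⟨iv v, d, by rwa [iv_iv]⟩, fun ⟨v, c, d⟩ => ⟨iv v, d, by rwa [iv_iv]⟩⟩⟩

lemma CS.glue (h : CS i j a b) {x : {x // x ≠ i 0}} {v : E} (e : x.1 = i v) :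
    ∃ y, a x = b y ∧ y.1 = j (iv v) :=
  ⟨⟨j (iv v), fun c => iv_ne (fun d => x.2 (by rw [e, d])) (h.hj.injective c)⟩,
    (h.eq _ _).2 ⟨v, e, rfl⟩, rfl⟩

lemma CS.le [T1Space M] [T1Space N] (h : CS i j a b) (hM : LE E M) (hN : LE E N) : LE E X := by
  intro z
  obtain ⟨x, rfl⟩ | ⟨x, rfl⟩ := h.cover z
  · obtain ⟨φ, c, d⟩ := le_open hM (isOpen_ne (x := i 0)) x
    exact ⟨⟨_, (h.ha.comp c).continuous⟩, h.ha.comp c, congrArg a d⟩
  · obtain ⟨φ, c, d⟩ := le_open hN (isOpen_ne (x := j 0)) x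
    exact ⟨⟨_, (h.hb.comp c).continuous⟩, h.hb.comp c, congrArg b d⟩

lemma CS.compact1 [CompactSpace M] (h : CS i j a b) :
    IsCompact (a '' {x | x.1 ∉ i '' ball 0 1}) :=
  ((IsInducing.subtypeVal.isCompact_preimage_iff (K := (i '' ball 0 1)ᶜ) fun x hx =>
    ⟨⟨x, fun e => hx ⟨0, mem_ball_self one_pos, e.symm⟩⟩, rfl⟩).2
    (h.hi.isOpenMap _ isOpen_ball).isClosed_compl.isCompact).image h.ha.continuous

lemma CS.cover1 (h : CS i j a b) (x : {x // x ≠ i 0}) :
    a x ∈ a '' {x | x.1 ∉ i '' ball 0 1} ∪ b '' {x | x.1 ∉ j '' ball 0 1} := by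
  by_cases e : x.1 ∈ i '' ball 0 1
  · obtain ⟨v, hv, e⟩ := e
    obtain ⟨y, c, d⟩ := h.glue e.symm
    refine Or.inr ⟨y, ?_, c.symm⟩
    rintro ⟨w, hw, e'⟩
    rw [h.hj.injective (e'.trans d), mem_ball_zero_iff, norm_iv] at hw
    rw [mem_ball_zero_iff] at hv
    have : 0 < ‖v‖ := norm_pos_iff.2 fun c => x.2 (by rw [← e, c])
    exact (one_lt_inv₀ this).2 hv |>.not_gt hw
  · exact Or.inl ⟨x, e, rfl⟩

lemma CS.compact [CompactSpace M] [CompactSpace N] (h : CS i j a b) : CompactSpace X := by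
  refine ⟨?_⟩
  convert h.compact1.union h.symm.compact1
  refine (eq_univ_of_forall fun z => ?_).symm
  obtain ⟨x, rfl⟩ | ⟨x, rfl⟩ := h.cover z
  · exact h.cover1 x
  · exact (h.symm.cover1 x).symm

lemma exists_kappa : ∃ κ : E → E, Continuous κ ∧ (∀ v, 1 ≤ ‖v‖ → κ v = v) ∧
    (∀ v, ‖v‖ ≤ 2⁻¹ → κ v = 0) ∧ ∀ v, ‖κ v‖ ≤ ‖v‖ := by
  refine ⟨fun v => max 0 (min 1 (2 * ‖v‖ - 1)) • v, by fun_prop, fun v h => ?_, fun v h => ?_,
    fun v => ?_⟩
  · beta_reduce
    rw [min_eq_left (by linarith), max_eq_right zero_le_one, one_smul]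
  · beta_reduce
    rw [max_eq_left (min_le_of_right_le (by linarith)), zero_smul]
  · rw [norm_smul, Real.norm_of_nonneg (le_max_left _ _)]
    exact mul_le_of_le_one_left (norm_nonneg _) (max_le zero_le_one (min_le_left _ _))

lemma CS.collapse [ProperSpace E] [Nontrivial E] [T2Space M] [T2Space N] (h : CS i j a b) :
    ∃ f : C(X, M), (∀ z ∈ range b, f z ∈ range i) ∧
      (∀ z ∉ range b, ∀ w ∉ range a, f z ≠ f w) ∧ ∃ φ : C(E, X), IsOpenEmbedding φ ∧
        IsOpenEmbedding (f.comp φ) ∧ ∀ y, f y = f (φ 0) → y = φ 0 := by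
  obtain ⟨κ, k0, k1, k2, k3⟩ := exists_kappa (E := E)
  let K := extend i (i ∘ κ) id
  have K1 : ∀ v, K (i v) = i (κ v) := h.hi.injective.extend_apply _ _
  have K2 : ∀ m, m ∉ range i → K m = m := extend_apply' _ _
  have K3 : Continuous K := continuous_iff_continuousAt.2 fun m => by
    by_cases e : m ∈ range i
    · obtain ⟨v, rfl⟩ := e
      rw [← h.hi.continuousAt_iff, extend_comp h.hi.injective]
      exact (h.hi.continuous.comp k0).continuousAt
    · refine continuousAt_id.congr (mem_of_superset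
        (((isCompact_closedBall 0 1).image h.hi.continuous).isClosed.isOpen_compl.mem_nhds
          fun c => e (image_subset_range _ _ c)) fun x hx => ?_)
      by_cases e : x ∈ range i
      · obtain ⟨v, rfl⟩ := e
        exact ((K1 v).trans (congrArg i (k1 v (le_of_not_ge fun c =>
          hx ⟨v, mem_closedBall_zero_iff.2 c, rfl⟩)))).symm
      · exact (K2 x e).symm
  let f := extend a (K ∘ Subtype.val) fun _ => i 0
  have f1 : ∀ x, f (a x) = K x.1 := h.ha.injective.extend_apply _ _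
  have f2 : ∀ z, z ∉ range a → f z = i 0 := extend_apply' _ _
  have f3 : Continuous f := continuous_iff_continuousAt.2 fun z => by
    by_cases e : z ∈ range a
    · obtain ⟨x, rfl⟩ := e
      rw [← h.ha.continuousAt_iff, extend_comp h.ha.injective]
      exact (K3.comp continuous_subtype_val).continuousAt
    obtain ⟨y, rfl⟩ := (h.cover z).resolve_left e
    rw [← h.hb.continuousAt_iff]
    refine (continuousAt_const (y := i 0)).congr (mem_of_superset
      ((((isCompact_closedBall 0 2).image h.hj.continuous).isClosed.isOpen_compl.preimage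
        continuous_subtype_val).mem_nhds ?_) fun x hx => ?_)
    · rintro ⟨w, -, c⟩
      obtain ⟨x, d, -⟩ := h.symm.glue c.symm
      exact e ⟨x, d.symm⟩
    by_cases e : b x ∈ range a
    · obtain ⟨u, e⟩ := e
      obtain ⟨v, c, d⟩ := (h.eq _ _).1 e
      change i 0 = f (b x)
      rw [← e, f1, c, K1, k2 v (le_of_not_ge fun c => hx ⟨_, ?_, d.symm⟩)]
      rw [mem_closedBall_zero_iff, norm_iv]
      exact inv_le_of_inv_le₀ two_pos c
    · exact (f2 _ e).symm
  obtain ⟨v₀, hv⟩ := NormedSpace.exists_lt_norm ℝ E 1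
  obtain ⟨e, e1, e2, e3⟩ := exists_ball_emb ((isOpen_lt continuous_const continuous_norm).mem_nhds hv)
  have e4 : ∀ v, i (e v) ≠ i 0 := fun v c => by
    have := e3 v
    rw [h.hi.injective c] at this
    exact not_lt.2 zero_le_one (by simpa using this)
  have e5 : IsOpenEmbedding fun v => a ⟨i (e v), e4 v⟩ := h.ha.comp
    (IsOpenEmbedding.of_comp _ isOpen_ne.isOpenEmbedding_subtypeVal (h.hi.comp e1))
  have e6 : ∀ v, f (a ⟨i (e v), e4 v⟩) = i (e v) := fun v => by rw [f1, K1, k1 _ (e3 v).le]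
  refine ⟨⟨f, f3⟩, fun z ⟨y, hy⟩ => ?_, fun z hz w hw => ?_, ⟨_, e5.continuous⟩, e5,
    (congrArg IsOpenEmbedding (funext e6)).mpr (h.hi.comp e1), fun z hz => ?_⟩
  · by_cases e : z ∈ range a
    · obtain ⟨u, rfl⟩ := e
      obtain ⟨v, c, -⟩ := (h.eq _ _).1 hy.symm
      exact ⟨κ v, ((f1 u).trans (c ▸ K1 v)).symm⟩
    · exact ⟨0, (f2 z e).symm⟩
  · obtain ⟨x, rfl⟩ := (h.cover z).resolve_right hz
    change f _ ≠ f _
    rw [f2 w hw, f1, K2]
    · exact x.2
    · rintro ⟨v, c⟩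
      obtain ⟨y, d, -⟩ := h.glue c.symm
      exact hz ⟨y, d.symm⟩
  · replace hz : f z = i (e 0) := hz.trans (e6 0)
    by_cases c : z ∈ range a
    · obtain ⟨u, rfl⟩ := c
      refine congrArg a (Subtype.ext ?_)
      rw [f1] at hz
      by_cases c : u.1 ∈ range i
      · obtain ⟨v, c⟩ := c
        rw [← c, K1] at hz
        rwa [k1 v ((e3 0).le.trans (h.hi.injective hz ▸ k3 v)), c] at hz
      · rwa [K2 _ c] at hz
    · exact (e4 0 (hz.symm.trans (f2 z c))).elim

lemma CS.t2 [ProperSpace E] [Nontrivial E] [T2Space M] [T2Space N] (h : CS i j a b) :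
    T2Space X := by
  obtain ⟨f, -, h1, -⟩ := h.collapse
  refine ⟨fun z w n => ?_⟩
  by_cases c : z ∈ range a ∧ w ∈ range a
  · obtain ⟨⟨x, rfl⟩, y, rfl⟩ := c
    exact separated_by_isOpenEmbedding h.ha fun e => n (congrArg a e)
  by_cases d : z ∈ range b ∧ w ∈ range b
  · obtain ⟨⟨x, rfl⟩, y, rfl⟩ := d
    exact separated_by_isOpenEmbedding h.hb fun e => n (congrArg b e)
  refine separated_by_continuous f.continuous ?_
  by_cases e : z ∈ range a
  · have : w ∉ range a := fun x => c ⟨e, x⟩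
    exact h1 z (fun x => d ⟨x, (h.cover w).resolve_left this⟩) w this
  · exact (h1 w (fun x => d ⟨(h.cover z).resolve_left e, x⟩) z e).symm

lemma punct_conn [ConnectedSpace M] [T1Space M] (hi : IsOpenEmbedding i) (hE : 1 < Module.rank ℝ E) :
    PreconnectedSpace {x // x ≠ i 0} := by
  refine Subtype.preconnectedSpace (s := {i 0}ᶜ) ?_
  have c := (isConnected_compl_singleton_of_one_lt_rank hE 0).isPreconnected.image i
    hi.continuous.continuousOn
  have s : i '' {0}ᶜ ⊆ {i 0}ᶜ := by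
    rintro _ ⟨v, hv, rfl⟩ e
    exact hv (hi.injective e)
  have key : ∀ U V : Set M, IsOpen U → IsOpen V → {i 0}ᶜ ⊆ U ∪ V → {i 0}ᶜ ∩ (U ∩ V) = ∅ →
      i '' {0}ᶜ ⊆ U → {i 0}ᶜ ⊆ U := fun U V hU hV h1 h2 h3 => by
    have := isPreconnected_univ.subset_left_of_subset_union (hU.union hi.isOpen_range)
      (hV.inter isOpen_compl_singleton) (disjoint_left.2 fun x hx hx' =>
        (h2.subset ⟨hx'.2, hx.elim id (fun ⟨v, e⟩ => h3 ⟨v, fun c => hx'.2 (by rw [← e, c]; rfl), e⟩),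
          hx'.1⟩ :)) (fun x _ => by
        by_cases e : x = i 0
        · exact Or.inl (Or.inr ⟨0, e.symm⟩)
        · exact (h1 e).imp Or.inl fun c => ⟨c, e⟩) ⟨i 0, mem_univ _, Or.inr ⟨0, rfl⟩⟩
    exact fun x hx => (this (mem_univ x)).elim id fun ⟨v, e⟩ =>
      h3 ⟨v, fun c => hx (by rw [← e, c]; rfl), e⟩
  rw [isPreconnected_iff_subset_of_disjoint] at c ⊢
  intro U V hU hV h1 h2
  exact (c U V hU hV (s.trans h1) (subset_eq_empty (inter_subset_inter_left _ s) h2)).imp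
    (key U V hU hV h1 h2) (key V U hV hU (by rwa [union_comm]) (by rwa [inter_comm V]))

lemma CS.conn [ConnectedSpace M] [T1Space M] [ConnectedSpace N] [T1Space N] (h : CS i j a b)
    (hE : 1 < Module.rank ℝ E) : ConnectedSpace X := by
  have := punct_conn h.hi hE
  have := punct_conn h.hj hE
  obtain ⟨v, hv⟩ := (isConnected_compl_singleton_of_one_lt_rank hE 0).nonempty
  obtain ⟨y, c, -⟩ := h.glue (x := ⟨i v, fun e => hv (h.hi.injective e)⟩) rfl
  refine connectedSpace_iff_univ.2 ⟨⟨b y, trivial⟩, ?_⟩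
  rw [← eq_univ_of_forall (s := range a ∪ range b) h.cover]
  exact (isPreconnected_range h.ha.continuous).union (b y) ⟨_, c⟩ ⟨_, rfl⟩
    (isPreconnected_range h.hb.continuous)

end Pool.Agent.Lib.MP_42281e_gt
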