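import Pool.Agent.Lib.MP_42281e_gt.Core
import Pool.Agent.Shared.GroupTree

/-! A group acting on a tree with trivial edge stabilisers, and the linear space it defines. -/

namespace Pool.Agent.Lib.MP_42281e_gt

open Pool.Agent.Shared.Mod2 Pool.Agent.Shared.GroupTree Set

variable {π V : Type} [Group π] [MulAction π V] {o τ : V}

/-- The edges `(g • o, g • τ)`, for `g` in `π`, form a tree. -/
structure TD (π : Type) {V : Type} [Group π] [MulAction π V] (o τ : V) : Prop where
  orb : ∀ v, ∃ g : π, v = g • o ∨ v = g • τ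
  ne : ∀ g : π, g • o ≠ τ
  solve : ∀ η : π → F, ∃ ζ : V → F, ∀ e, ζ (e • o) + ζ (e • τ) = η e
  conn : ∀ c : V → F, (∀ e : π, c (e • o) = c (e • τ)) → ∀ v w, c v = c w

/-- The graph with edges `(g • o, g • τ)`. -/
def gr (π : Type) {V : Type} [Group π] [MulAction π V] (o τ : V) : SimpleGraph V :=
  SimpleGraph.fromRel fun x y => ∃ g : π, x = g • o ∧ y = g • τ

lemma TD.ne' (h : TD π o τ) (g k : π) : g • o ≠ k • τ := fun e =>
  h.ne (k⁻¹ * g) (by rw [mul_smul, e, inv_smul_smul])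

lemma TD.adj (h : TD π o τ) {x y : V} : (gr π o τ).Adj x y ↔
    ∃ g : π, (x = g • o ∧ y = g • τ) ∨ (y = g • o ∧ x = g • τ) := by
  rw [gr, SimpleGraph.fromRel_adj, exists_or]
  refine and_iff_right_of_imp ?_
  rintro (⟨g, rfl, rfl⟩ | ⟨g, rfl, rfl⟩)
  · exact h.ne' g g
  · exact (h.ne' g g).symm

lemma TD.edge (h : TD π o τ) {g e : π} (h1 : g • o = e • o) (h2 : g • τ = e • τ) : g = e := by
  classical
  obtain ⟨ζ, hζ⟩ := h.solve fun x => if x = e then 1 else 0
  have := hζ g
  rw [h1, h2, hζ e] at this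
  by_contra n
  simp [n] at this

lemma TD.gtree (h : TD π o τ) : GTree π (gr π o τ) := by
  classical
  refine ⟨⟨(SimpleGraph.connected_iff_exists_forall_reachable _).2 ⟨o, fun v => ?_⟩, ?_⟩, ?_, ?_⟩
  · have := h.conn (fun v => if (gr π o τ).Reachable o v then 1 else 0) (fun e => by
      have a := (h.adj.2 ⟨e, Or.inl ⟨rfl, rfl⟩⟩).reachable
      simp only [show (gr π o τ).Reachable o (e • o) ↔ (gr π o τ).Reachable o (e • τ) from
        ⟨fun b => b.trans a, fun b => b.trans a.symm⟩]) o v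
    by_contra n
    simp [n] at this
  · rw [SimpleGraph.isAcyclic_iff_forall_adj_isBridge]
    intro v w hvw
    obtain ⟨g, hg⟩ := h.adj.1 hvw
    have hs : s(v, w) = s(g • o, g • τ) := by
      rcases hg with ⟨rfl, rfl⟩ | ⟨rfl, rfl⟩
      · rfl
      · exact Sym2.eq_swap
    rw [hs, SimpleGraph.isBridge_iff]
    rintro ⟨p⟩
    obtain ⟨ζ, hζ⟩ := h.solve fun x => if x = g then 1 else 0
    have key : ∀ x y (_ : ((gr π o τ).deleteEdges {s(g • o, g • τ)}).Walk x y), ζ x = ζ y := by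
      intro x y p
      induction p with
      | nil => rfl
      | cons a _ ih =>
        rw [SimpleGraph.deleteEdges_adj] at a
        obtain ⟨k, hk⟩ := h.adj.1 a.1
        have h2 := hζ k
        rw [if_neg (by
          rintro rfl
          rcases hk with ⟨rfl, rfl⟩ | ⟨rfl, rfl⟩
          · exact a.2 rfl
          · exact a.2 Sym2.eq_swap)] at h2
        rw [← ih]
        rcases hk with ⟨rfl, rfl⟩ | ⟨rfl, rfl⟩
        · exact eq_of_add_eq_zero h2
        · exact (eq_of_add_eq_zero h2).symm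
    have := hζ g
    rw [key _ _ p, aa] at this
    simp at this
  · intro g x y a
    obtain ⟨k, hk⟩ := h.adj.1 a
    exact h.adj.2 ⟨g * k, by rcases hk with ⟨rfl, rfl⟩ | ⟨rfl, rfl⟩ <;> simp [mul_smul]⟩
  · intro g x y a h1 h2
    obtain ⟨k, ⟨rfl, rfl⟩ | ⟨rfl, rfl⟩⟩ := h.adj.1 a
    · exact h.ne' (g * k) k (by rw [mul_smul, h1])
    · exact h.ne' (g * k) k (by rw [mul_smul, h2])

lemma TD.uniq (h : TD π o τ) {g : π} (hg : g ≠ 1) {v w : V} (hv : g • v = v) (hw : g • w = w) :
    v = w := by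
  by_contra n
  obtain ⟨u, a, b⟩ := h.gtree.exists_edge n
  have hu := b g hv hw
  obtain ⟨k, ⟨rfl, rfl⟩ | ⟨rfl, rfl⟩⟩ := h.adj.1 a
  · exact hg (by simpa using h.edge (g := g * k) (e := k) (by rwa [mul_smul]) (by rwa [mul_smul]))
  · exact hg (by simpa using h.edge (g := g * k) (e := k) (by rwa [mul_smul]) (by rwa [mul_smul]))

lemma TD.comm (h : TD π o τ) {g : π} (hg : ∀ v : V, g • v ≠ v) {k l : π} (hk : Commute k g)
    (hl : Commute l g) : Commute k l := by
  obtain ⟨v, hv⟩ | ⟨p, L, hL⟩ := h.gtree.fix_or_axis g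
  · exact (hg v hv).elim
  by_contra n
  have := hL.line.injective (h.uniq (g := k * l * k⁻¹ * l⁻¹)
    (fun e => n (by rw [mul_inv_eq_one, mul_inv_eq_iff_eq_mul] at e; exact e))
    (hL.commutator_fix h.gtree hk hl 0) (hL.commutator_fix h.gtree hk hl 1))
  simp at this

variable (V) in
/-- Elements fixing a common vertex, or commuting. -/
def R (k h : π) : Prop := (∃ v : V, k • v = v ∧ h • v = v) ∨ Commute k h

lemma TD.ell (h : TD π o τ) {g : π} (hg : g ≠ 1) {v : V} (hv : g • v = v) {k : π} :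
    R V k g ↔ k • v = v := by
  refine ⟨?_, fun e => Or.inl ⟨v, e, hv⟩⟩
  rintro (⟨w, a, b⟩ | e)
  · rwa [h.uniq hg hv b]
  · exact h.uniq hg (by rw [← mul_smul, ← e.eq, mul_smul, hv]) hv

lemma hyp {g : π} (hg : ∀ v : V, g • v ≠ v) {k : π} : R V k g ↔ Commute k g :=
  ⟨fun e => e.resolve_left fun ⟨v, e⟩ => hg v e.2, Or.inr⟩

lemma TD.div (h : TD π o τ) {g k l : π} (hg : g ≠ 1) (hk : R V k g) (hl : R V l g) :
    R V (k⁻¹ * l) g := by
  by_cases e : ∃ v : V, g • v = v
  · obtain ⟨v, e⟩ := e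
    rw [h.ell hg e] at *
    rw [mul_smul, hl, inv_smul_eq_iff, hk]
  · push Not at e
    rw [hyp e] at *
    exact hk.inv_left.mul_left hl

lemma TD.trans (h : TD π o τ) {g k l : π} (hg : g ≠ 1) (hk : R V k g) (hl : R V l g) :
    R V k l := by
  by_cases e : ∃ v : V, g • v = v
  · obtain ⟨v, e⟩ := e
    rw [h.ell hg e] at *
    exact Or.inl ⟨v, hk, hl⟩
  · push Not at e
    rw [hyp e] at *
    exact Or.inr (h.comm e hk hl)

lemma R.symm {k l : π} (h : R V k l) : R V l k :=
  h.imp (fun ⟨v, e⟩ => ⟨v, e.symm⟩) Commute.symm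

lemma R.conj {k l : π} (h : R V k l) (b : π) : R V (b * k * b⁻¹) (b * l * b⁻¹) :=
  h.imp (fun ⟨v, e⟩ => ⟨b • v, by simp [mul_smul, e]⟩) fun e => e.map (MulAut.conj b)

/-- The two-sided action. -/
def act (π : Type) [Group π] : π × π →* Equiv.Perm π where
  toFun a := (Equiv.mulRight a.2⁻¹).trans (Equiv.mulLeft a.1)
  map_one' := by ext; simp
  map_mul' a b := by ext; simp [mul_assoc]

lemma act_apply (a : π × π) (g : π) : act π a g = a.1 * (g * a.2⁻¹) := rfl

variable (π V) in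
/-- The lines. -/
def LL : Set (Set π) := {P | ∃ x h : π, h ≠ 1 ∧ P = {y | R V (x⁻¹ * y) h}}

lemma TD.lines (h : TD π o τ) : Lines (act π) (LL π V) := by
  have key : ∀ p g x y : π, g ≠ 1 → x ≠ y → R V (p⁻¹ * x) g → R V (p⁻¹ * y) g → ∀ z,
      R V (p⁻¹ * z) g ↔ R V (x⁻¹ * z) (x⁻¹ * y) := fun p g x y hg n hx hy z => by
    have a : R V (x⁻¹ * y) g := by simpa [mul_assoc] using h.div hg hx hy
    refine ⟨fun e => h.trans hg (by simpa [mul_assoc] using h.div hg hx e) a, fun e => ?_⟩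
    have b := h.trans (fun e => n (inv_mul_eq_one.1 e)) e a.symm
    simpa [mul_assoc] using h.div hg (h.div hg hx (Or.inr (Commute.one_left g))) b
  refine ⟨?_, ?_, fun x y n => ⟨_, ⟨x, x⁻¹ * y, fun e => n (inv_mul_eq_one.1 e), rfl⟩,
    Or.inr (by simp), Or.inr (Commute.refl _)⟩, ?_⟩
  · rintro ⟨a, b⟩ _ ⟨x, g, hg, rfl⟩
    refine ⟨a * x * b⁻¹, b * g * b⁻¹, by simpa using hg, Set.ext fun z => ⟨?_, fun e => ?_⟩⟩
    · rintro ⟨y, hy, rfl⟩
      simpa [act_apply, mul_assoc] using R.conj hy b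
    · exact ⟨a⁻¹ * z * b, by simpa [mul_assoc] using R.conj e b⁻¹, by simp [act_apply, mul_assoc]⟩
  · rintro _ ⟨p, g, hg, rfl⟩ _ ⟨q, k, hk, rfl⟩ x y n a b c d
    exact Set.ext fun z => (key p g x y hg n a b z).trans (key q k x y hk n c d z).symm
  · rintro ⟨a, b⟩ n x y - hx -
    rw [act_apply, ← mul_assoc, mul_inv_eq_iff_eq_mul] at hx
    refine ⟨_, ⟨x, b, ?_, rfl⟩, fun z hz => Or.inr ?_⟩
    · rintro rfl
      exact n (Prod.ext (by simpa using hx) rfl)
    · rw [act_apply, ← mul_assoc, mul_inv_eq_iff_eq_mul] at hz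
      change x⁻¹ * z * b = b * (x⁻¹ * z)
      rw [mul_assoc, ← hz, eq_mul_inv_of_mul_eq hx]
      simp [mul_assoc]

variable {H K : Type} [Group H] [Group K]

lemma van_triv (ι : K →* H) (h : ∀ g, ι g = 1) (k : ℕ) : ((std H).comp ι).Van k := by
  intro μ _ h2
  refine ⟨fun l => μ (1 :: l), fun g b _ => by simp [h], fun b _ hb => ?_⟩
  have := h2 (1 :: b) (congrArg (· + 1) hb)
  simp only [LC, lin_sg, bdl, map_add, cone, lin_mp] at this ⊢
  exact eq_of_add_eq_zero this

lemma TD.van (h : TD π o τ) {B : Type} {X : Cx B} {A : Act X H} (hD : Dom A univ) (θ : H →* π)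
    {k : ℕ} (hV : ∀ v : V, ∀ S : Subgroup H, (∀ g ∈ S, θ g • v = v) →
      (A.comp S.subtype).Van (k + 3))
    (hE : ∀ S : Subgroup H, (∀ g ∈ S, θ g = 1) → (A.comp S.subtype).Van (k + 2)) :
    A.Van (k + 3) :=
  van_tree hD ((MulAction.toPermHom π V).comp θ) ((MulAction.toPermHom π π).comp θ)
    (· • o) (· • τ) (fun _ _ => mul_smul _ _ _) (fun _ _ => mul_smul _ _ _) h.solve h.conn o
    (fun v => hV v _ fun _ e => e) fun _ => hE _ fun _ e => mul_eq_right.1 e

lemma TD.cd (h : TD π o τ) {k : ℕ} (hV : ∀ v : V, CD (MulAction.stabilizer π v) (k + 3)) :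
    CD π (k + 3) := fun S =>
  h.van (std_dom.comp S.subtype_injective) S.subtype (fun v T e =>
    (hV v).van (ι := (S.subtype.comp T.subtype).codRestrict _ fun g => e g g.2)
      (fun _ _ e => Subtype.ext (Subtype.ext (Subtype.mk.inj e)))
      ((std_dom.comp S.subtype_injective).comp T.subtype_injective) (LC_acyc 1))
    fun T e => van_triv (S.subtype.comp T.subtype) (fun g => e g g.2) _

theorem TD.main (h : TD π o τ) {m : ℕ} (c1 : ∀ v : V, CD (MulAction.stabilizer π v) (m + 3))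
    (c2 : ∀ v : V, CD (MulAction.stabilizer π v) (m + 4)) (ρ : π × π →* K)
    (c3 : ∀ (x : π) (v : V), ∃ T : Subgroup K, CD T (m + 4) ∧
      ∀ a : π × π, a.1 • x • v = x • v → a.2 • v = v → ρ a ∈ T)
    {B B' : Type} {X : Cx B} {A : Act X (π × π)} {D : Set B} (hD : Dom A D)
    {lab : B → Set (Fin (m + 3) × π)} (hl : Lab A D (act π) lab) {X' : Cx B'} {A' : Act X' K}
    (hX : X'.Acyc) {μ : B' → F} (h1 : A'.Inv univ μ) (h2 : X'.Coc (m + 4) μ) {φ : B → Ch B'}
    (hφ : CMap A (A'.comp ρ) D φ) : A.Cob D (m + 4) fun b => lin μ (φ b) := by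
  obtain ⟨κ, hκ⟩ := exists_cmap std_dom (A'.comp ρ) hX
  have d1 := h.cd c1
  have d2 := h.cd (k := m + 1) c2
  have v : ∀ (H : Type) [Group H] (ι : H →* π × π), Function.Injective ι →
      (∀ g, (ι g).1 = 1 → (ι g).2 = 1) →
      ((std _).comp ι).Van (m + 3) ∧ ((std _).comp ι).Van (m + 4) := fun H _ ι a e => by
    have : Function.Injective ((MonoidHom.fst π π).comp ι) :=
      (injective_iff_map_eq_one _).2 fun g b => a ((Prod.ext b (e g b)).trans (map_one ι).symm)
    exact ⟨d1.van this (std_dom.comp a) (LC_acyc 1), d2.van this (std_dom.comp a) (LC_acyc 1)⟩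
  have i1 := hκ.inv (μ := μ) fun g => h1 (ρ g)
  obtain ⟨ψ, p1, p2⟩ := core h.lines hD (m := m + 1) hl i1 (hκ.coc h2)
    (fun x S e => v S S.subtype S.subtype_injective fun g a => by
      have := e g g.2
      rw [act_apply, show g.1.1 = 1 from a] at this
      simpa using this) (by
      rintro _ ⟨x, g, hg, rfl⟩
      set S := stab (img (act π)) {y | R V (x⁻¹ * y) g}
      have s1 : ∀ a ∈ S, ∀ y, R V y g → R V (x⁻¹ * (a.1 * (x * y * a.2⁻¹))) g := fun a ha y hy =>
        (Set.ext_iff.1 (mem_stab.1 ha) _).1 ⟨x * y, by simpa using hy, rfl⟩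
      by_cases e : ∃ w : V, g • w = w
      · obtain ⟨w, e⟩ := e
        obtain ⟨T, t1, t2⟩ := c3 x w
        refine cob_of_factor (std_dom.comp S.subtype_injective)
          ((ρ.comp S.subtype).codRestrict T fun a => ?_) std_dom (LC_acyc 1)
          (A'' := A'.comp T.subtype) hX (t1.van (ι := MonoidHom.id _) (fun _ _ e => e) std_dom
            (LC_acyc 1)) (hκ.res S.subtype) (fun g => h1 g) h2
        have a1 := (h.ell hg e).1 (s1 a a.2 1 (Or.inr (Commute.one_left g)))
        have a2 := (h.ell hg e).1 (s1 a a.2 g (Or.inr (Commute.refl g)))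
        simp only [mul_smul, inv_smul_eq_iff, one_smul] at a1 a2
        have a3 := h.uniq hg (smul_left_cancel _ (smul_left_cancel _ (a2.trans a1.symm))) e
        rw [a3] at a1
        exact t2 _ a1 (inv_smul_eq_iff.1 a3).symm
      · push Not at e
        have s2 : ∀ w : V, ∀ T : Subgroup S, (∀ a ∈ T, a.1.2 • w = w) →
            ∀ a : T, a.1.1.1 = 1 → a.1.1.2 = 1 := fun w T t a b => by
          by_contra n
          have := (hyp e).1 (s1 _ a.1.2 1 (Or.inr (Commute.one_left g)))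
          rw [b, one_mul, mul_one, inv_mul_cancel_left, Commute.inv_left_iff] at this
          exact e w ((h.ell n (t a a.2)).1 (Or.inr this.symm))
        exact h.van (k := m + 1) (std_dom.comp S.subtype_injective)
          ((MonoidHom.snd π π).comp S.subtype)
          (fun w T t => (v T (S.subtype.comp T.subtype)
            (S.subtype_injective.comp T.subtype_injective) (s2 w T t)).2)
          (fun T t => (v T (S.subtype.comp T.subtype)
            (S.subtype_injective.comp T.subtype_injective) fun a _ => t a a.2).1) _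
          (fun a => i1 a) (hκ.coc h2))
  refine cob_htpy hD hX (p1.comp hκ fun _ _ => mem_sup_univ _) hφ (fun g => h1 (ρ g)) h2 ?_
  simpa only [map_lin] using p2

end Pool.Agent.Lib.MP_42281e_gt
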