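import Pool.Agent.Shared.Mod2Manifold

/-! A compact `N`-manifold is covered by `N + 1` disjoint unions of small open sets. -/

namespace Pool.Agent.Lib.MP_42281e_gt

open Pool.Agent.Shared.Mod2 Set Topology Filter Metric Function

variable {Y : Type} [TopologicalSpace Y] [T2Space Y] {N : ℕ} {ι : Type}

lemma shrink {U : ι → Set Y} (hU : ∀ i, IsOpen (U i)) (hc : ∀ y, ∃ i, y ∈ U i)
    {φ : C(Fin N → ℝ, Y)} (hφ : IsOpenEmbedding φ) :
    ∃ V : ι → Set Y, (∀ i, IsOpen (V i) ∧ V i ⊆ U i) ∧ (∀ y, ∃ i, y ∈ V i) ∧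
      ∀ y ∈ φ '' closedBall 0 1, ∃ t : Fin (N + 1) → ι, ∀ i, y ∈ V i → i ∈ range t := by
  obtain ⟨δ, d0, d1⟩ := lebesgue_number_lemma_of_metric (isCompact_closedBall (0 : Fin N → ℝ) 1)
    (c := fun i => φ ⁻¹' U i) (fun i => (hU i).preimage φ.continuous)
    fun x _ => mem_iUnion.2 (hc _)
  let t : Fin (N + 1) → ℝ := fun j => (j : ℕ) / (N + 1)
  let Q : Fin (N + 1) × (Fin N → ℤ) → Set (Fin N → ℝ) := fun c =>
    ⋂ k, {x | c.2 k < x k / δ - t c.1} ∩ {x | x k / δ - t c.1 < c.2 k + 1}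
  have q1 : ∀ c, IsOpen (Q c) := fun c => isOpen_iInter_of_finite fun k =>
    (isOpen_lt (by fun_prop) (by fun_prop)).inter (isOpen_lt (by fun_prop) (by fun_prop))
  have q2 : ∀ x, ∃ c, x ∈ Q c := fun x => by
    obtain ⟨j, hj⟩ : ∃ j, ∀ k, Int.fract (x k / δ) ≠ t j := by
      by_contra! h
      choose k hk using h
      obtain ⟨i, j, n, e⟩ := Fintype.exists_ne_map_eq_of_card_lt k (by simp)
      have := (hk i).symm.trans (e ▸ hk j)
      simp only [t] at this
      rw [div_left_inj' (by positivity)] at this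
      exact n (Fin.ext (by exact_mod_cast this))
    refine ⟨(j, fun k => ⌊x k / δ - t j⌋), mem_iInter.2 fun k =>
      ⟨(Int.floor_le (x k / δ - t j)).lt_of_ne fun e => hj k ?_,
        Int.lt_floor_add_one (x k / δ - t j)⟩⟩
    refine Int.fract_eq_iff.2 ⟨by positivity, (div_lt_one (by positivity)).2 ?_, _, e.symm⟩
    exact_mod_cast j.2
  have : ∀ c, ∃ i, ∀ x ∈ closedBall 0 1, x ∈ Q c → Q c ⊆ φ ⁻¹' U i := fun c => by
    by_cases h : ∃ x ∈ closedBall 0 1, x ∈ Q c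
    · obtain ⟨x, x1, x2⟩ := h
      refine (d1 x x1).imp fun i hi _ _ _ y hy => hi ((dist_pi_lt_iff d0).2 fun k => ?_)
      have a := mem_iInter.1 x2 k
      have b := mem_iInter.1 hy k
      simp only [mem_inter_iff, mem_ofPred_eq] at a b
      have : |y k / δ - x k / δ| < 1 := abs_lt.2 ⟨by linarith, by linarith⟩
      rwa [← sub_div, abs_div, abs_of_pos d0, div_lt_one d0] at this
    · exact ⟨(hc (φ 0)).choose, fun x a b => (h ⟨x, a, b⟩).elim⟩
  choose r hr using this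
  refine ⟨fun i => U i ∩ ((φ '' closedBall 0 1)ᶜ ∪ ⋃ c, ⋃ (_ : r c = i), φ '' Q c), fun i =>
    ⟨(hU i).inter (((isCompact_closedBall 0 1).image φ.continuous).isClosed.isOpen_compl.union
      (isOpen_iUnion fun c => isOpen_iUnion fun _ => hφ.isOpenMap _ (q1 c))), inter_subset_left⟩,
    fun y => ?_, ?_⟩
  · by_cases h : y ∈ φ '' closedBall 0 1
    · obtain ⟨x, hx, rfl⟩ := h
      obtain ⟨c, e⟩ := q2 x
      exact ⟨r c, hr c x hx e e, Or.inr (mem_iUnion₂.2 ⟨c, rfl, x, e, rfl⟩)⟩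
    · exact (hc y).imp fun i e => ⟨e, Or.inl h⟩
  · rintro _ ⟨x, hx, rfl⟩
    refine ⟨fun j => r (j, fun k => ⌊x k / δ - t j⌋), fun i hi => ?_⟩
    obtain ⟨c, rfl, y, e, e'⟩ := mem_iUnion₂.1 (hi.2.resolve_left fun h => h ⟨x, hx, rfl⟩)
    obtain rfl := hφ.injective e'
    exact ⟨c.1, congrArg r (Prod.ext rfl (funext fun k => Int.floor_eq_iff.2
      ⟨(mem_iInter.1 e k).1.le, (mem_iInter.1 e k).2⟩))⟩

theorem colour [CompactSpace Y] (h : LE (Fin N → ℝ) Y) (P : Set Y → Prop)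
    (h0 : ∀ y, ∃ U, IsOpen U ∧ P U ∧ y ∈ U) (h1 : ∀ U V, P U → IsOpen V → V ⊆ U → P V)
    (h2 : ∀ (ι : Type) (W : ι → Set Y), (∀ i, P (W i)) → Pairwise (Disjoint on W) → P (⋃ i, W i)) :
    ∃ O : Fin (N + 1) → Set Y, (∀ k, P (O k)) ∧ ⋃ k, O k = univ := by
  classical
  choose U u1 u2 u3 using h0
  obtain ⟨s, hs⟩ := isCompact_univ.elim_finite_subcover U u1 fun y _ => mem_iUnion.2 ⟨y, u3 y⟩
  choose φ hφ using h
  obtain ⟨t, ht⟩ := exists_cover hφ one_pos isCompact_univ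
  have key : ∀ t : Finset Y, ∃ V : s → Set Y, (∀ i, IsOpen (V i) ∧ V i ⊆ U i) ∧
      (∀ y, ∃ i, y ∈ V i) ∧ ∀ y ∈ ⋃ z ∈ t, φ z '' ball 0 1,
        ∃ t : Fin (N + 1) → s, ∀ i, y ∈ V i → i ∈ range t := fun t => by
    induction t using Finset.induction_on with
    | empty => exact ⟨fun i => U i, fun i => ⟨u1 i, subset_rfl⟩, fun y => by
        simpa using hs (mem_univ y), by simp⟩
    | insert z t _ ih =>
      obtain ⟨V, v1, v2, v3⟩ := ih
      obtain ⟨W, w1, w2, w3⟩ := shrink (fun i => (v1 i).1) v2 (hφ z).1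
      refine ⟨W, fun i => ⟨(w1 i).1, (w1 i).2.trans (v1 i).2⟩, w2, fun y hy => ?_⟩
      rw [Finset.set_biUnion_insert] at hy
      exact hy.elim (fun e => w3 y (image_mono ball_subset_closedBall e)) fun e =>
        (v3 y e).imp fun _ a i b => a i ((w1 i).2 b)
  obtain ⟨V, v1, v2, v3⟩ := key t
  obtain ⟨f, hf⟩ := PartitionOfUnity.exists_isSubordinate isClosed_univ V (fun i => (v1 i).1)
    fun y _ => mem_iUnion.2 (v2 y)
  have f1 : ∀ i y, 0 < f i y → y ∈ V i := fun i y e => hf i (subset_tsupport _ e.ne')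
  let W : Finset s → Set Y := fun S => ⋂ i ∈ S, {y | 0 < f i y} ∩ ⋂ j ∈ Sᶜ, {y | f j y < f i y}
  refine ⟨fun k => ⋃ S : {S : Finset s // S.card = k + 1}, W S, fun k => h2 _ _ (fun S => ?_) ?_,
    eq_univ_of_forall fun y => ?_⟩
  · obtain ⟨i, hi⟩ := Finset.card_pos.1 ((Nat.succ_pos _).trans_eq S.2.symm)
    refine h1 _ _ (u2 i) (isOpen_biInter_finset fun i _ => (isOpen_lt (by fun_prop)
      (by fun_prop)).inter (isOpen_biInter_finset fun j _ => isOpen_lt (by fun_prop)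
        (by fun_prop))) fun y hy => (v1 i).2 (f1 i y (mem_iInter₂.1 hy i hi).1)
  · intro S T n
    refine disjoint_left.2 fun y a b => ?_
    have c : ∀ S T : {S : Finset s // S.card = k + 1}, S ≠ T → ∃ i ∈ S.1, i ∉ T.1 := fun S T n =>
      Finset.not_subset.1 fun e => n (Subtype.ext (Finset.eq_of_subset_of_card_le e
        (T.2.trans S.2.symm).le))
    obtain ⟨i, i1, i2⟩ := c S T n
    obtain ⟨j, j1, j2⟩ := c T S n.symm
    exact lt_asymm (a := f j y) (b := f i y) (mem_iInter₂.1 (mem_iInter₂.1 a i i1).2 j (Finset.mem_compl.2 j2))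
      (mem_iInter₂.1 (mem_iInter₂.1 b j j1).2 i (Finset.mem_compl.2 i2))
  · obtain ⟨r, hr⟩ := v3 y (ht (mem_univ y))
    let S : Finset s := {i | 0 < f i y}
    have s1 : 0 < S.card := Finset.card_pos.2 ((f.exists_pos (mem_univ y)).imp fun i e => by
      simpa [S] using e)
    have s2 : S.card ≤ N + 1 := by
      refine (Finset.card_le_card (t := Finset.univ.image r) fun i hi => ?_).trans
        (Finset.card_image_le.trans (by simp))
      simpa using hr i (f1 i y (by simpa [S] using hi))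
    refine mem_iUnion₂.2 ⟨⟨S.card - 1, by omega⟩, ⟨S, by simp only; omega⟩,
      mem_iInter₂.2 fun i hi => ?_⟩
    have : 0 < f i y := by simpa [S] using hi
    exact ⟨this, mem_iInter₂.2 fun j hj => lt_of_le_of_lt (by simpa [S] using hj) this⟩

variable {X E : Type} [TopologicalSpace X] [NormedAddCommGroup E] [NormedSpace ℝ E]

/-- Open sets with a motion planner. -/
def Good (U : Set (X × X)) : Prop := IsOpen U ∧
  ∃ s : X × X → C(I, X), ContinuousOn s U ∧ ∀ u ∈ U, s u 0 = u.1 ∧ s u 1 = u.2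

lemma good_nhds [PathConnectedSpace X] (h : LE E X) (z : X × X) :
    ∃ U, IsOpen U ∧ Good U ∧ z ∈ U := by
  obtain ⟨x, y⟩ := z
  obtain ⟨φ, a, rfl⟩ := h x
  obtain ⟨ψ, b, rfl⟩ := h y
  let γ := PathConnectedSpace.somePath (φ 0) (ψ 0)
  let α : ∀ v : E × E, Path (φ v.1) (φ 0) := fun v =>
    ⟨⟨fun t => φ ((1 - (t : ℝ)) • v.1), by fun_prop⟩, by simp, by simp⟩
  let β : ∀ v : E × E, Path (ψ 0) (ψ v.2) := fun v =>
    ⟨⟨fun t => ψ ((t : ℝ) • v.2), by fun_prop⟩, by simp, by simp⟩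
  let S : E × E → C(I, X) := fun v => ((α v).trans (γ.trans (β v))).toContinuousMap
  have hS : Continuous S := ContinuousMap.continuous_of_continuous_uncurry _
    (Path.trans_continuous_family α
      (show Continuous fun x : (E × E) × I => φ ((1 - (x.2 : ℝ)) • x.1.1) by fun_prop) _
      (Path.trans_continuous_family (fun _ => γ) (γ.continuous.comp continuous_snd) β
        (show Continuous fun x : (E × E) × I => ψ ((x.2 : ℝ) • x.1.2) by fun_prop)))
  have c := a.prodMap b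
  refine ⟨_, c.isOpen_range, ⟨c.isOpen_range, extend (Prod.map φ ψ) S fun _ => S 0, ?_, ?_⟩,
    ⟨(0, 0), rfl⟩⟩
  · rintro _ ⟨v, rfl⟩
    refine ContinuousAt.continuousWithinAt ?_
    rw [← c.continuousAt_iff, extend_comp c.injective]
    exact hS.continuousAt
  · rintro _ ⟨v, rfl⟩
    rw [c.injective.extend_apply]
    exact ⟨Path.source _, Path.target _⟩

theorem upper [T2Space X] [CompactSpace X] [PathConnectedSpace X] [FiniteDimensional ℝ E]
    (h : LE E X) : ∃ O : Fin (2 * Module.finrank ℝ E + 1) → Set (X × X),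
      (∀ k, Good (O k)) ∧ ⋃ k, O k = univ := by
  classical
  let e : (Fin (2 * Module.finrank ℝ E) → ℝ) ≃L[ℝ] E × E :=
    ContinuousLinearEquiv.ofFinrankEq (by simp [two_mul])
  refine colour (fun z => ?_) Good (good_nhds h)
    (fun U V ⟨_, s, a, b⟩ c d => ⟨c, s, a.mono d, fun u hu => b u (d hu)⟩) fun ι W a b => ?_
  · obtain ⟨φ, a, b⟩ := h.prod h z
    exact ⟨φ.comp ⟨e, e.continuous⟩, a.comp e.toHomeomorph.isOpenEmbedding, by simpa using b⟩
  choose o s c d using a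
  let σ : X × X → C(I, X) := fun u => if h : ∃ i, u ∈ W i then s h.choose u else .const _ u.1
  have k : ∀ i, ∀ u ∈ W i, σ u = s i u := fun i u hu => by
    have h : ∃ i, u ∈ W i := ⟨i, hu⟩
    have : h.choose = i := by
      by_contra n
      exact disjoint_left.1 (b n) h.choose_spec hu
    simp only [σ, dif_pos h, this]
  refine ⟨isOpen_iUnion o, σ, fun u hu => ?_, fun u hu => ?_⟩
  · obtain ⟨i, hi⟩ := mem_iUnion.1 hu
    exact (((c i).continuousAt ((o i).mem_nhds hi)).congr (mem_of_superset ((o i).mem_nhds hi)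
      fun v hv => (k i v hv).symm)).continuousWithinAt
  · obtain ⟨i, hi⟩ := mem_iUnion.1 hu
    rw [k i u hi]
    exact d i u hi

end Pool.Agent.Lib.MP_42281e_gt
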